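import Mathlib

/-!
# MP_77656e_ag: schemes, vector bundles, projective schemes, rational schemes

Definitions used in the statement of the final theorem.
-/

set_option autoImplicit false

open AlgebraicGeometry CategoryTheory TopologicalSpace Opposite

namespace Pool.Agent.Helper17.RZ.Sch

universe u

noncomputable section

/-- An integral scheme `Z` over `k` with a finite covering by nonempty affine open subsets. -/
structure CSch (k : Type u) [Field k] where
  Z : Scheme.{u}
  [int : IsIntegral Z]
  /-- the structure morphism -/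
  f : Z ⟶ Spec (CommRingCat.of k)
  I : Type
  [fin : Fintype I]
  [ord : LinearOrder I]
  U : I → Z.Opens
  ne : ∀ i, (U i : Set Z).Nonempty
  aff : ∀ i, IsAffineOpen (U i)
  cov : ∀ x : Z, ∃ i, x ∈ U i

attribute [instance] CSch.int CSch.fin CSch.ord

/-- The sheaf of modules `E` is a vector bundle: every point has an open neighbourhood `U` with sections
`e 1, …, e n` over `U` whose restrictions to every open subset `W` of `U` are a basis of the sections
over `W`. -/
def IsVB {Z : Scheme.{u}} (E : Z.Modules) : Prop :=
  ∀ x : Z, ∃ U : Z.Opens, x ∈ U ∧ ∃ (n : ℕ) (e : Fin n → Γ(E, U)), ∀ (W : Z.Opens) (h : W ≤ U)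
    (s : Γ(E, W)), ∃! c : Fin n → Γ(Z, W), s = ∑ j, c j • E.presheaf.map (homOfLE h).op (e j)

/-- A bounded complex of vector bundles. -/
structure VBC (Z : Scheme.{u}) where
  C : CochainComplex Z.Modules ℤ
  vb : ∀ i, IsVB (C.X i)
  bd : ℕ
  bounded : ∀ i : ℤ, (bd : ℤ) < |i| → Limits.IsZero (C.X i)

attribute [local instance] MvPolynomial.gradedAlgebra

/-- `X` is a projective scheme over `k`: it is isomorphic to a closed subscheme of a projective space
over `k`. -/
def IsProjective {k : Type u} [Field k] {Z : Scheme.{u}} (f : Z ⟶ Spec (CommRingCat.of k)) : Prop :=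
  ∃ (ι : Type) (_ : Fintype ι) (i : Z ⟶ Proj (MvPolynomial.homogeneousSubmodule ι k)),
    IsClosedImmersion i ∧ i ≫ Proj.toSpecZero (MvPolynomial.homogeneousSubmodule ι k) ≫
      Spec.map (CommRingCat.ofHom (algebraMap k (MvPolynomial.homogeneousSubmodule ι k 0))) = f

/-- `Z` is a rational variety over `k`: a nonempty open subscheme of `Z` is isomorphic over `k` to an open
subscheme of an affine space over `k`. -/
def IsRational {k : Type u} [Field k] {Z : Scheme.{u}} (f : Z ⟶ Spec (CommRingCat.of k)) : Prop :=
  ∃ (n : ℕ) (U : Z.Opens) (V : (Spec (CommRingCat.of (MvPolynomial (Fin n) k))).Opens)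
    (e : U.toScheme ≅ V.toScheme), (U : Set Z).Nonempty ∧
      e.hom ≫ V.ι ≫ Spec.map (CommRingCat.ofHom (MvPolynomial.C : k →+* MvPolynomial (Fin n) k)) = U.ι ≫ f

end

end Pool.Agent.Helper17.RZ.Sch
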