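import Pool.Agent.Helper17.RZF.Perf
import Pool.Agent.Helper49.RZ.Mod

/-!
# MP_77656e_ag: transfer between the two layers of definitions: DG categories and DG functors

`hv` and `lt` are inverse to each other (definitionally).
-/

set_option autoImplicit false

namespace Pool.Agent.Helper17.RZF.Tr

universe u v w

open Pool.Agent.Helper17

noncomputable section

variable {k : Type u} [Field k]

/-- from the light to the heavy layer -/
def hv (C : RZF.DGCat.{u, v, w} k) : RZ.DGCat.{u, v, w} k where
  Obj := C.Obj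
  Hom X Y n := C.Hom X Y n
  one := C.one
  comp h := LinearMap.mk₂ k (fun f g => C.comp h f g)
    (fun f f' g => (C.ax.lin_left h g).map_add f f') (fun c f g => (C.ax.lin_left h g).map_smul c f)
    (fun f g g' => (C.ax.lin_right h f).map_add g g') (fun c f g => (C.ax.lin_right h f).map_smul c g)
  d h := (C.ax.lin_d h).mk' _
  one_comp h f := C.ax.one_comp h f
  comp_one h f := C.ax.comp_one h f
  assoc h₁ h₂ h₃ h₄ f g h := C.ax.assoc h₁ h₂ h₃ h₄ f g h
  d_d h₁ h₂ f := C.ax.d_d h₁ h₂ f
  d_comp h hl hn hm h₁ h₂ f g := C.ax.d_comp h hl hn hm h₁ h₂ f g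

/-- from the heavy to the light layer -/
def lt (C : RZ.DGCat.{u, v, w} k) : RZF.DGCat.{u, v, w} k where
  Obj := C.Obj
  Hom X Y n := ModuleCat.of k (C.Hom X Y n)
  one := C.one
  comp h f g := C.comp h f g
  d h f := C.d h f
  ax :=
    { lin_left := fun h g => ((C.comp h).flip g).isLinear
      lin_right := fun h f => (C.comp h f).isLinear
      lin_d := fun h => (C.d h).isLinear
      one_comp := fun h f => C.one_comp h f
      comp_one := fun h f => C.comp_one h f
      assoc := fun h₁ h₂ h₃ h₄ f g h => C.assoc h₁ h₂ h₃ h₄ f g h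
      d_d := fun h₁ h₂ f => C.d_d h₁ h₂ f
      d_comp := fun h hl hn hm h₁ h₂ f g => C.d_comp h hl hn hm h₁ h₂ f g }

theorem lt_hv (C : RZF.DGCat.{u, v, w} k) : lt (hv C) = C := rfl

theorem hv_lt (C : RZ.DGCat.{u, v, w} k) : hv (lt C) = C := rfl

/-- RZ-T1: quasi-equivalences -/
def TrQE : Prop :=
  ∀ (k : Type u) [Field k] (A B : RZ.DGCat.{u, v, w} k), Helper49.RZ.QuasiEquivalent A B →
    RZF.QuasiEquivalent (lt A) (lt B)

/-- RZ-T2: the two versions of the DG category of perfect modules are quasi-equivalent (the functor is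
bijective on objects and morphisms). -/
def TrPerf : Prop :=
  ∀ (k : Type u) [Field k] (V : RZF.DGCat.{u, v, w} k),
    ∃ F : Helper49.RZ.DGFun (hv (RZF.Perf V)) (Helper49.RZ.Perf (hv V)), F.IsQuasiEquiv

end

end Pool.Agent.Helper17.RZF.Tr
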