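import Pool.Agent.Helper17.RZF.Cech4
import Pool.Agent.Helper17.RZF.TrSt
import Pool.Agent.Helper17.RZ.Sch.Fin
import Pool.Agent.Helper36.RZ.Sch.Rat

/-!
# MP_77656e_ag: the main theorem in the light layer (assembly)
-/

set_option autoImplicit false

open AlgebraicGeometry CategoryTheory TopologicalSpace Opposite

namespace Pool.Agent.Helper17.RZF.Tr

open Pool.Agent.Helper17

universe u v w

noncomputable section

/-- The main statement. -/
def Main4 : Prop :=
  ∀ (k : Type u) [Field k] [IsAlgClosed k], (2 : k) ≠ 0 →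
    ∃ (X : RZ.Sch.CSch.{u} k) (R : RZF.DGAlg.{u, u} k), RZ.Sch.IsProjective X.f ∧ ¬ RZ.Sch.IsRational X.f ∧
      R.FinDim ∧ RZF.QuasiEquivalent (RZF.Perf (RZF.cech X)) (RZF.Perf (RZF.oneObj.{u, u + 1, u} R))

variable {k : Type u} [Field k]

/-- DG algebras: from the heavy to the light layer -/
def ltA (R : RZ.DGA.{u, w} k) : RZF.DGAlg.{u, w} k where
  R n := ModuleCat.of k (R.R n)
  one := R.one
  mul h f g := R.mul h f g
  d h f := R.d h f
  ax :=
    { lin_left := fun h g => ((R.mul h).flip g).isLinear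
      lin_right := fun h f => (R.mul h f).isLinear
      lin_d := fun h => (R.d h).isLinear
      one_comp := fun h f => R.one_mul h f
      comp_one := fun h f => R.mul_one h f
      assoc := fun h₁ h₂ h₃ h₄ f g h => R.assoc h₁ h₂ h₃ h₄ f g h
      d_d := fun h₁ h₂ f => R.d_d h₁ h₂ f
      d_comp := fun h hl hn hm h₁ h₂ f g => R.d_mul h hl hn hm h₁ h₂ f g }

theorem hv_oneObj (R : RZ.DGA.{u, w} k) :
    hv (RZF.oneObj.{u, v, w} (ltA R)) = Helper49.RZ.oneObj.{u, v, w} R := rfl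

theorem finDim {R : RZ.DGA.{u, w} k} (h : R.Fin) : (ltA R).FinDim := by
  classical
  obtain ⟨h1, B, hB⟩ := h
  have h1' : ∀ n, Module.Finite k (R.R n) := h1
  change Module.Finite k (DirectSum ℤ (fun n => R.R n))
  let f : (∀ n : Finset.Icc (-(B : ℤ)) B, R.R n) →ₗ[k] DirectSum ℤ (fun n => R.R n) :=
    ∑ n : Finset.Icc (-(B : ℤ)) B, DirectSum.lof k ℤ (fun n => R.R n) n ∘ₗ LinearMap.proj n
  refine Module.Finite.of_surjective f ?_
  rw [← LinearMap.range_eq_top, eq_top_iff]
  rintro x -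
  induction x using DirectSum.induction_on with
  | zero => exact Submodule.zero_mem _
  | of n x =>
    by_cases hn : n ∈ Finset.Icc (-(B : ℤ)) B
    · refine ⟨Pi.single ⟨n, hn⟩ x, ?_⟩
      rw [LinearMap.sum_apply, Finset.sum_eq_single_of_mem (⟨n, hn⟩ : Finset.Icc (-(B : ℤ)) B)
        (Finset.mem_univ _)]
      · rw [LinearMap.comp_apply, LinearMap.proj_apply, Pi.single_eq_same]
        rfl
      · intro b _ hb
        rw [LinearMap.comp_apply, LinearMap.proj_apply, Pi.single_eq_of_ne hb, map_zero]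
    · have h2 : (B : ℤ) < |n| := by
        rw [Finset.mem_Icc, ← abs_le] at hn
        exact not_le.mp hn
      have := hB n h2
      rw [Subsingleton.elim x 0, map_zero]
      exact Submodule.zero_mem _
  | add x y hx hy => exact Submodule.add_mem _ hx hy

/-- the comparison of the two versions of the Cech DG category -/
def cechFun (X : RZ.Sch.CSch.{u} k) : Helper49.RZ.DGFun (hv (RZF.cech X)) X.cech where
  obj A := A
  map {A B n} := RZF.Pf.TTl (X := X) A B n
  map_one A := RZF.Pf.TT_one (X := X) A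
  map_comp h f g := RZF.Pf.TT_comp (X := X) h f g
  map_d h f := RZF.Pf.TT_d (X := X) h f

theorem d_one (C : RZ.DGCat.{u, v, w} k) (X : C.Obj) (h : (0 : ℤ) + 1 = 1) : C.d h (C.one X) = 0 := by
  have h1 := C.d_comp (zero_add 0) h h h (add_zero 1) (zero_add 1) (C.one X) (C.one X)
  rw [C.one_comp, C.comp_one, C.one_comp, Int.negOnePow_zero, one_smul] at h1
  have h2 : C.d h (C.one X) + 0 = C.d h (C.one X) + C.d h (C.one X) := by rw [add_zero]; exact h1
  exact (add_left_cancel h2).symm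

theorem retract_self (C : RZ.DGCat.{u, v, w} k) (X : C.Obj) : C.Retract X X :=
  ⟨C.one X, C.one X, 0, d_one C X _, d_one C X _, by rw [C.one_comp, map_zero, add_zero]⟩

theorem wEquiv_cech (X : RZ.Sch.CSch.{u} k) : RZ.Sch.WEquiv (hv (RZF.cech X)) X.cech := by
  refine ⟨cechFun X, fun A B => ?_, fun A => ⟨A, retract_self _ _⟩⟩
  refine RZ.Sch.QI_of_bijective (cechFun X) A B (fun n c c' h => RZF.Pf.TT_inj h) (fun n f => ?_)
  exact RZF.Pf.TT_surj (X := X) f

theorem qe_of_perf {A B : RZF.DGCat.{u, v, w} k} (hQ : TrQE.{u, max u (v + 1) (w + 1), max v w})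
    (hP : TrPerf.{u, v, w})
    (h : Helper49.RZ.QuasiEquivalent (Helper49.RZ.Perf (hv A)) (Helper49.RZ.Perf (hv B))) :
    RZF.QuasiEquivalent (RZF.Perf A) (RZF.Perf B) := by
  obtain ⟨F, hF⟩ := hP k A
  obtain ⟨G, hG⟩ := hP k B
  have h1 : Helper49.RZ.QuasiEquivalent (hv (RZF.Perf A)) (hv (RZF.Perf B)) :=
    .right F hF (RZ.Sch.QuasiEquivalent_trans h (.left G hG (.refl _)))
  exact hQ k _ _ h1

theorem main4 (hQ : TrQE.{u, u + 2, u + 1}) (hP : TrPerf.{u, u + 1, u}) : Main4.{u} := by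
  intro k _ _ h2
  obtain ⟨X, R, h3, h4, h5, h6⟩ := RZ.Sch.main3T k h2
  refine ⟨X, ltA R, h3, fun h => h4 (RZ.Sch.ratS k X h), finDim h5, ?_⟩
  refine qe_of_perf hQ hP ?_
  have h7 := RZ.Sch.quasiEquivalent_of_wEquiv Helper49.RZ.perfEquiv (wEquiv_cech X)
  exact RZ.Sch.QuasiEquivalent_trans h7 h6

end

end Pool.Agent.Helper17.RZF.Tr
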