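import Mathlib

/-!
# MP_77656e_ag: DG categories, DG functors, quasi-equivalences

Definitions used in the statement of the final theorem.  A DG category over the field `k` is given by
vector spaces `Hom X Y n` of morphisms of degree `n : ℤ`, identities, compositions and differentials.
To avoid casts the degree of the result of an operation is a variable together with a proof of the
equation between the degrees.
-/

set_option autoImplicit false

namespace Pool.Agent.Helper17.RZF

universe u v w

variable {k : Type u} [Field k]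

/-- The zero vector. -/
def zro (M : ModuleCat.{w} k) : M := 0

/-- The sum `x + y`. -/
def add {M : ModuleCat.{w} k} (x y : M) : M := x + y

/-- The element `(-1)ⁿ x`. -/
def sgn {M : ModuleCat.{w} k} (n : ℤ) (x : M) : M := n.negOnePow • x

/-- The map `f` is linear. -/
def Lin {M : ModuleCat.{v} k} {N : ModuleCat.{w} k} (f : M → N) : Prop := IsLinearMap k f

/-- The axioms of a DG category: composition (`comp h f g` is `f` after `g`) is bilinear, unital and
associative, the differential is linear with square zero and satisfies the Leibniz rule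
`d (f g) = (d f) g + (-1)ⁿ f (d g)`, `n = deg f`. -/
structure IsDG {Obj : Type v} (Hom : Obj → Obj → ℤ → ModuleCat.{w} k) (one : ∀ X : Obj, Hom X X 0)
    (comp : ∀ {X Y Z : Obj} {n m l : ℤ}, n + m = l → Hom Y Z n → Hom X Y m → Hom X Z l)
    (d : ∀ {X Y : Obj} {n m : ℤ}, n + 1 = m → Hom X Y n → Hom X Y m) : Prop where
  lin_left : ∀ {X Y Z : Obj} {n m l : ℤ} (h : n + m = l) (g : Hom X Y m),
    Lin (fun f : Hom Y Z n => comp h f g)
  lin_right : ∀ {X Y Z : Obj} {n m l : ℤ} (h : n + m = l) (f : Hom Y Z n),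
    Lin (fun g : Hom X Y m => comp h f g)
  lin_d : ∀ {X Y : Obj} {n m : ℤ} (h : n + 1 = m), Lin (fun f : Hom X Y n => d h f)
  one_comp : ∀ {X Y : Obj} {n : ℤ} (h : 0 + n = n) (f : Hom X Y n), comp h (one Y) f = f
  comp_one : ∀ {X Y : Obj} {n : ℤ} (h : n + 0 = n) (f : Hom X Y n), comp h f (one X) = f
  assoc : ∀ {W X Y Z : Obj} {a b c ab bc l : ℤ} (h₁ : a + b = ab) (h₂ : ab + c = l) (h₃ : b + c = bc)
    (h₄ : a + bc = l) (f : Hom Y Z a) (g : Hom X Y b) (h : Hom W X c),
    comp h₂ (comp h₁ f g) h = comp h₄ f (comp h₃ g h)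
  d_d : ∀ {X Y : Obj} {n m l : ℤ} (h₁ : n + 1 = m) (h₂ : m + 1 = l) (f : Hom X Y n),
    d h₂ (d h₁ f) = zro (Hom X Y l)
  d_comp : ∀ {X Y Z : Obj} {n m l n' m' l' : ℤ} (h : n + m = l) (hl : l + 1 = l') (hn : n + 1 = n')
    (hm : m + 1 = m') (h₁ : n' + m = l') (h₂ : n + m' = l') (f : Hom Y Z n) (g : Hom X Y m),
    d hl (comp h f g) = add (comp h₁ (d hn f) g) (sgn n (comp h₂ f (d hm g)))

/-- A DG category over `k`. -/
structure DGCat (k : Type u) [Field k] where
  Obj : Type v
  Hom : Obj → Obj → ℤ → ModuleCat.{w} k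
  one : ∀ X : Obj, Hom X X 0
  comp : ∀ {X Y Z : Obj} {n m l : ℤ}, n + m = l → Hom Y Z n → Hom X Y m → Hom X Z l
  d : ∀ {X Y : Obj} {n m : ℤ}, n + 1 = m → Hom X Y n → Hom X Y m
  ax : IsDG Hom one @comp @d

/-- A DG functor. -/
structure Functor (C D : DGCat.{u, v, w} k) where
  obj : C.Obj → D.Obj
  map : ∀ {X Y : C.Obj} {n : ℤ}, C.Hom X Y n → D.Hom (obj X) (obj Y) n
  lin : ∀ X Y n, Lin (map : C.Hom X Y n → D.Hom (obj X) (obj Y) n)
  map_one : ∀ X : C.Obj, map (C.one X) = D.one (obj X)
  map_comp : ∀ {X Y Z : C.Obj} {n m l : ℤ} (h : n + m = l) (f : C.Hom Y Z n) (g : C.Hom X Y m),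
    map (C.comp h f g) = D.comp h (map f) (map g)
  map_d : ∀ {X Y : C.Obj} {n m : ℤ} (h : n + 1 = m) (f : C.Hom X Y n), map (C.d h f) = D.d h (map f)

/-- The morphism is closed: `d f = 0`. -/
def Closed (C : DGCat.{u, v, w} k) {X Y : C.Obj} {n : ℤ} (f : C.Hom X Y n) : Prop :=
  C.d rfl f = zro (C.Hom X Y (n + 1))

/-- The closed endomorphism `f` of degree `0` is homotopic to the identity. -/
def HomotopicToId (C : DGCat.{u, v, w} k) {X : C.Obj} (f : C.Hom X X 0) : Prop :=
  ∃ s : C.Hom X X (-1), f = add (C.one X) (C.d (neg_add_cancel 1) s)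

/-- `X` and `Y` are isomorphic in the homotopy category `H⁰(C)`. -/
def HEquiv (C : DGCat.{u, v, w} k) (X Y : C.Obj) : Prop :=
  ∃ (f : C.Hom X Y 0) (g : C.Hom Y X 0), Closed C f ∧ Closed C g ∧
    HomotopicToId C (C.comp (zero_add 0) g f) ∧ HomotopicToId C (C.comp (zero_add 0) f g)

/-- A quasi-equivalence: a DG functor which is bijective on the cohomology of all complexes of morphisms
and essentially surjective on homotopy categories. -/
structure Functor.IsQuasiEquiv {C D : DGCat.{u, v, w} k} (F : Functor C D) : Prop where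
  inj : ∀ {X Y : C.Obj} {l n : ℤ} (h : l + 1 = n) (x : C.Hom X Y n)
    (y : D.Hom (F.obj X) (F.obj Y) l), Closed C x → F.map x = D.d h y → ∃ z, x = C.d h z
  surj : ∀ {X Y : C.Obj} {l n : ℤ} (h : l + 1 = n) (y : D.Hom (F.obj X) (F.obj Y) n), Closed D y →
    ∃ (x : C.Hom X Y n) (z : D.Hom (F.obj X) (F.obj Y) l), Closed C x ∧ y = add (F.map x) (D.d h z)
  ess : ∀ Y : D.Obj, ∃ X : C.Obj, HEquiv D (F.obj X) Y

/-- Two DG categories are quasi-equivalent: they are joined by a chain of quasi-equivalences in both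
directions. -/
def QuasiEquivalent (C D : DGCat.{u, v, w} k) : Prop :=
  Relation.EqvGen (fun A B => ∃ F : Functor A B, F.IsQuasiEquiv) C D

/-- The product of a family of vector spaces. -/
def prodM {ι : Type v} (M : ι → ModuleCat.{w} k) : ModuleCat.{max v w} k := ModuleCat.of k (∀ i, M i)

/-- The property `P` is stable under linear combinations. -/
structure IsSub {M : ModuleCat.{w} k} (P : M → Prop) : Prop where
  zero : P (zro M)
  add : ∀ x y : M, P x → P y → P (add x y)
  smul : ∀ (c : k) (x : M), P x → P (c • x)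

/-- The subspace of the elements with the property `P`. -/
def IsSub.sub {M : ModuleCat.{w} k} {P : M → Prop} (h : IsSub P) : Submodule k M where
  carrier := {x | P x}
  add_mem' := h.add _ _
  zero_mem' := h.zero
  smul_mem' := h.smul

/-- The vector space of the elements with the property `P`. -/
def subM {M : ModuleCat.{w} k} {P : M → Prop} (h : IsSub P) : ModuleCat.{w} k := ModuleCat.of k h.sub

/-- The element of the subspace given by an element with the property `P`. -/
def subM.mk {M : ModuleCat.{w} k} {P : M → Prop} {h : IsSub P} (x : M) (hx : P x) : subM h := ⟨x, hx⟩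

/-- The inclusion of the subspace. -/
def subM.val {M : ModuleCat.{w} k} {P : M → Prop} {h : IsSub P} (x : subM h) : M := Subtype.val x

theorem subM.prop {M : ModuleCat.{w} k} {P : M → Prop} {h : IsSub P} (x : subM h) : P x.val :=
  Subtype.prop x

end Pool.Agent.Helper17.RZF
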