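import Pool.Agent.Helper17.RZF.Cat
import Pool.Agent.Helper17.RZF.Base

/-!
# MP_77656e_ag: morphisms of sheaves of modules over open subsets

Definitions used in the statement of the final theorem.
-/

set_option autoImplicit false

open AlgebraicGeometry CategoryTheory TopologicalSpace Opposite

namespace Pool.Agent.Helper17.RZF

open Pool.Agent.Helper17.RZ.Sch (CSch VBC IsVB)

universe u

noncomputable section

section Sheaves

variable {Z : Scheme.{u}}

/-- The open subset `W` is contained in `U`. -/
def Sub (W U : Z.Opens) : Prop := W ≤ U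

theorem Sub.trans {U V W : Z.Opens} (h : Sub U V) (h' : Sub V W) : Sub U W := le_trans h h'

/-- The open subsets of `U`. -/
def Opn (U : Z.Opens) : Type u := {W : Z.Opens // Sub W U}

/-- The open subset of `Z` given by an open subset of `U`. -/
def Opn.in {U : Z.Opens} (W : Opn U) : Z.Opens := W.1

/-- The ring of regular functions on `W`. -/
def fn (W : Z.Opens) : CommRingCat.{u} := Γ(Z, W)

/-- The module of sections over `W` of a sheaf of modules. -/
def sc (E : Z.Modules) (W : Z.Opens) : ModuleCat.{u} (fn W) := @ModuleCat.of Γ(Z, W) _ Γ(E, W) _ _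

/-- The product of a regular function and a section. -/
def sm {E : Z.Modules} {W : Z.Opens} (r : fn W) (s : sc E W) : sc E W := r • s

/-- The restriction of sections. -/
def rs {E : Z.Modules} {W W' : Z.Opens} (h : Sub W' W) (s : sc E W) : sc E W' :=
  E.presheaf.map (homOfLE h).op s

/-- The action of a morphism of sheaves of modules on sections. -/
def mo {E F : Z.Modules} (g : E ⟶ F) (W : Z.Opens) (s : sc E W) : sc F W := g.app W s

/-- The term of degree `i` of a complex of vector bundles. -/
def tm (A : VBC Z) (i : ℤ) : Z.Modules := A.C.X i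

/-- The differential `Aⁱ → Aʲ` (zero unless `j = i + 1`). -/
def df (A : VBC Z) (i j : ℤ) : tm A i ⟶ tm A j := A.C.d i j

/-- The isomorphism `Aⁱ → Aʲ` for `i = j`. -/
def eqm (A : VBC Z) {i j : ℤ} (h : i = j) : tm A i ⟶ tm A j := (A.C.XIsoOfEq h).hom

end Sheaves

variable {k : Type u} [Field k] {X : CSch.{u} k}

theorem le_pre (X : CSch.{u} k) (W : X.Z.Opens) : W ≤ X.f ⁻¹ᵁ ⊤ := le_top

/-- The elements of `k` as regular functions on `W`. -/
def cst (X : CSch.{u} k) (W : X.Z.Opens) : k →+* fn W :=
  ((Scheme.ΓSpecIso (CommRingCat.of k)).inv ≫ X.f.appLE ⊤ W (le_pre X W)).hom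

/-- The sections over `W` of a sheaf of modules, as a vector space over `k`. -/
def sec (E : X.Z.Modules) (W : X.Z.Opens) : ModuleCat.{u} k :=
  @ModuleCat.of k _ (sc E W) _ (Module.compHom _ (cst X W))

/-- Families of maps `Γ(E, W) → Γ(F, W)`, for the open subsets `W` of `U`. -/
def Fam (E F : X.Z.Modules) (U : X.Z.Opens) : ModuleCat.{u} k :=
  prodM fun W : Opn U => prodM fun _ : sec E W.in => sec F W.in

/-- The member `Γ(E, W) → Γ(F, W)` of a family. -/
def mem {E F : X.Z.Modules} {U : X.Z.Opens} (φ : Fam E F U) {W : X.Z.Opens} (h : Sub W U) (s : sec E W) :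
    sec F W := (φ : ∀ W : Opn U, sec E W.in → sec F W.in) ⟨W, h⟩ s

/-- The family is a morphism `E|_U → F|_U` of sheaves of modules: the maps are linear over the regular
functions and compatible with restrictions. -/
structure IsMor {E F : X.Z.Modules} {U : X.Z.Opens} (φ : Fam E F U) : Prop where
  add : ∀ {W : X.Z.Opens} (h : Sub W U) (s t : sec E W),
    mem φ h (RZF.add s t) = RZF.add (mem φ h s) (mem φ h t)
  smul : ∀ {W : X.Z.Opens} (h : Sub W U) (r : fn W) (s : sec E W),
    mem φ h (sm (E := E) r s) = sm (E := F) r (mem φ h s)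
  res : ∀ {W W' : X.Z.Opens} (h : Sub W U) (h' : Sub W' W) (s : sec E W),
    mem φ (h'.trans h) (rs (E := E) h' s) = rs (E := F) h' (mem φ h s)

/-- The restriction of a family to a smaller open subset. -/
def resF {E F : X.Z.Modules} {U U' : X.Z.Opens} (h : Sub U' U) (φ : Fam E F U) : Fam E F U' :=
  fun W s => mem φ (Sub.trans W.2 h) s

/-- The composition of families. -/
def compF {E F G : X.Z.Modules} {U : X.Z.Opens} (φ : Fam F G U) (ψ : Fam E F U) : Fam E G U :=
  fun W s => mem φ W.2 (mem ψ W.2 s)

/-- The family given by a morphism of sheaves of modules. -/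
def ofF {E F : X.Z.Modules} (g : E ⟶ F) (U : X.Z.Opens) : Fam E F U := fun W s => mo g W.in s

/-- The intersection of the open subsets `U i`, `i ∈ σ`. -/
def Us (X : CSch.{u} k) (σ : Finset X.I) : X.Z.Opens := σ.inf X.U

section Sets

variable {I : Type} [LinearOrder I]

/-- The elements `≤ i` of `σ`. -/
def lo (σ : Finset I) (i : I) : Finset I := σ.filter (fun j => j ≤ i)

/-- The elements `≥ i` of `σ`. -/
def hi (σ : Finset I) (i : I) : Finset I := σ.filter (fun j => i ≤ j)

/-- The set `σ` without `i`. -/
def er (σ : Finset I) (i : I) : Finset I := σ.erase i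

/-- The number of elements of `σ` smaller than `i`. -/
def pos (σ : Finset I) (i : I) : ℤ := (σ.filter (fun j => j < i)).card

end Sets

end

end Pool.Agent.Helper17.RZF
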