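import Pool.Agent.Helper17.RZF.CechP1

/-!
# MP_77656e_ag: Cech cochains with values in morphisms of complexes of vector bundles

Definitions used in the statement of the final theorem.
-/

set_option autoImplicit false

open AlgebraicGeometry CategoryTheory TopologicalSpace Opposite

namespace Pool.Agent.Helper17.RZF

open Pool.Agent.Helper17.RZ.Sch (CSch VBC IsVB)

universe u

noncomputable section

variable {k : Type u} [Field k] {X : CSch.{u} k}

theorem isMor_sub (E F : X.Z.Modules) (U : X.Z.Opens) : IsSub (M := Fam E F U) IsMor :=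
  ⟨Pf.isMor_zero E F U, fun _ _ => Pf.isMor_add, fun c _ => Pf.isMor_smul c⟩

/-- The vector space of morphisms `E|_U → F|_U` of sheaves of modules. -/
def HomOn (E F : X.Z.Modules) (U : X.Z.Opens) : ModuleCat.{u} k := subM (isMor_sub E F U)

theorem isMor_res {E F : X.Z.Modules} {U U' : X.Z.Opens} (h : Sub U' U) (φ : HomOn E F U) :
    IsMor (resF h (subM.val φ)) := Pf.isMor_res h (subM.prop φ)

/-- The restriction of morphisms. -/
def res {E F : X.Z.Modules} {U U' : X.Z.Opens} (h : Sub U' U) (φ : HomOn E F U) : HomOn E F U' :=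
  subM.mk (resF h (subM.val φ)) (isMor_res h φ)

theorem isMor_comp {E F G : X.Z.Modules} {U : X.Z.Opens} (φ : HomOn F G U) (ψ : HomOn E F U) :
    IsMor (compF (subM.val φ) (subM.val ψ)) := Pf.isMor_comp (subM.prop φ) (subM.prop ψ)

/-- The composition of morphisms. -/
def comp {E F G : X.Z.Modules} {U : X.Z.Opens} (φ : HomOn F G U) (ψ : HomOn E F U) : HomOn E G U :=
  subM.mk (compF (subM.val φ) (subM.val ψ)) (isMor_comp φ ψ)

theorem isMor_of {E F : X.Z.Modules} (g : E ⟶ F) (U : X.Z.Opens) : IsMor (ofF g U) := Pf.isMor_of g U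

/-- The restriction `E|_U → F|_U` of a morphism of sheaves of modules. -/
def of {E F : X.Z.Modules} (g : E ⟶ F) (U : X.Z.Opens) : HomOn E F U := subM.mk (ofF g U) (isMor_of g U)

theorem Us_lo (σ : Finset X.I) (i : X.I) : Sub (Us X σ) (Us X (lo σ i)) :=
  Finset.inf_mono (f := X.U) (Finset.filter_subset _ σ)

theorem Us_hi (σ : Finset X.I) (i : X.I) : Sub (Us X σ) (Us X (hi σ i)) :=
  Finset.inf_mono (f := X.U) (Finset.filter_subset _ σ)

theorem Us_er (σ : Finset X.I) (i : X.I) : Sub (Us X σ) (Us X (er σ i)) :=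
  Finset.inf_mono (f := X.U) (Finset.erase_subset i σ)

/-- The vector space of morphisms `Aⁱ|_U → Bʲ|_U`, `U = U_σ`. -/
def Cell (A B : VBC X.Z) (σ : Finset X.I) (p : ℤ × ℤ) : ModuleCat.{u} k :=
  HomOn (tm A p.1) (tm B p.2) (Us X σ)

/-- Families of morphisms `Aⁱ|_U → Bʲ|_U` over the open subsets `U = U_σ`, `σ` a finite set of indices. -/
def Coch (A B : VBC X.Z) : ModuleCat.{u} k := prodM fun σ : Finset X.I => prodM fun p => Cell A B σ p

/-- The member `Aⁱ|_U → Bʲ|_U` of a family, `U = U_σ`. -/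
def cell {A B : VBC X.Z} (c : Coch A B) (σ : Finset X.I) (i j : ℤ) : Cell A B σ (i, j) :=
  (c : ∀ (σ : Finset X.I) (p : ℤ × ℤ), Cell A B σ p) σ (i, j)

/-- The sum of the vectors `f i`, `i ∈ σ`. -/
def sum {M : ModuleCat.{u} k} (σ : Finset X.I) (f : X.I → M) : M := ∑ i ∈ σ, f i

/-- The family is a Cech cochain of total degree `n`: the components for the empty set vanish, and the
components for a set with `p + 1` elements are morphisms `Aⁱ → Bʲ`, `j = i + n - p`. -/
def IsCoch {A B : VBC X.Z} (n : ℤ) (c : Coch A B) : Prop :=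
  ∀ (σ : Finset X.I) (i j : ℤ), σ = ∅ ∨ i + n + 1 ≠ j + σ.card → cell c σ i j = zro (Cell A B σ (i, j))

/-- The unit cochain: the identities for the sets with one element. -/
def oneC (A : VBC X.Z) : Coch A A :=
  fun σ p => if h : σ.card = 1 ∧ p.1 = p.2 then of (eqm A h.2) (Us X σ) else zro (Cell A A σ p)

/-- The composition of the components `c(σ') : Bᵐ → Cʲ` and `c'(σ'') : Aⁱ → Bᵐ`, where `σ'` and `σ''` are
the sets of the elements `≤ l` and `≥ l` of `σ`. -/
def cut {A B C : VBC X.Z} (c : Coch B C) (c' : Coch A B) (σ : Finset X.I) (i m j : ℤ) (l : X.I) :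
    Cell A C σ (i, j) :=
  comp (res (Us_lo σ l) (cell c (lo σ l) m j)) (res (Us_hi σ l) (cell c' (hi σ l) i m))

/-- The composition (cup product) of cochains, `m` is the degree of `c'`. -/
def cup {A B C : VBC X.Z} (m : ℤ) (c : Coch B C) (c' : Coch A B) : Coch A C :=
  fun σ p => sum σ fun l => cut c c' σ p.1 (p.1 + m + 1 - (hi σ l).card) p.2 l

/-- The Cech differential: the sum of the restrictions of `± c(σ - l)`, `l ∈ σ`. -/
def del {A B : VBC X.Z} (c : Coch A B) : Coch A B :=
  fun σ p => sum σ fun l => sgn (pos σ l) (res (Us_er σ l) (cell c (er σ l) p.1 p.2))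

/-- The composition with the differential of `B`. -/
def dl {A B : VBC X.Z} (c : Coch A B) : Coch A B :=
  fun σ p => comp (of (df B (p.2 - 1) p.2) (Us X σ)) (cell c σ p.1 (p.2 - 1))

/-- The composition with the differential of `A`. -/
def dr {A B : VBC X.Z} (c : Coch A B) : Coch A B :=
  fun σ p => comp (cell c σ (p.1 + 1) p.2) (of (df A p.1 (p.1 + 1)) (Us X σ))

/-- The family with the components `(-1)ʲ c(σ) : Aⁱ → Bʲ`. -/
def par {A B : VBC X.Z} (c : Coch A B) : Coch A B := fun σ p => sgn p.2 (cell c σ p.1 p.2)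

/-- The total differential of a cochain of degree `n`: on the component `Aⁱ → Bʲ` it is
`(-1)ʲ δ + d c - (-1)ⁿ c d`. -/
def dC {A B : VBC X.Z} (n : ℤ) (c : Coch A B) : Coch A B :=
  add (add (par (del c)) (dl c)) (sgn (n + 1) (dr c))

end

end Pool.Agent.Helper17.RZF
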