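import Pool.Agent.Helper17.RZF.CechP2

/-!
# MP_77656e_ag: the operations of the Cech DG category

Definitions used in the statement of the final theorem.
-/

set_option autoImplicit false

open AlgebraicGeometry CategoryTheory TopologicalSpace Opposite

namespace Pool.Agent.Helper17.RZF

open Pool.Agent.Helper17.RZ.Sch (CSch VBC IsVB)

universe u

noncomputable section

variable {k : Type u} [Field k] {X : CSch.{u} k}

theorem isCoch_sub (A B : VBC X.Z) (n : ℤ) : IsSub (M := Coch A B) (IsCoch n) :=
  ⟨Pf.isCoch_zero A B n, fun _ _ => Pf.isCoch_add, fun a _ => Pf.isCoch_smul a⟩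

/-- The vector space of Cech cochains of degree `n`. -/
def CochHom (A B : VBC X.Z) (n : ℤ) : ModuleCat.{u} k := subM (isCoch_sub A B n)

theorem isCoch_one (A : VBC X.Z) : IsCoch 0 (oneC A) := Pf.isCoch_one A

theorem isCoch_cup {A B C : VBC X.Z} {n m l : ℤ} (h : n + m = l) (c : CochHom B C n) (c' : CochHom A B m) :
    IsCoch l (cup m (subM.val c) (subM.val c')) := Pf.isCoch_cup h (subM.prop c)

theorem isCoch_d {A B : VBC X.Z} {n m : ℤ} (h : n + 1 = m) (c : CochHom A B n) :
    IsCoch m (dC n (subM.val c)) := Pf.isCoch_d h (subM.prop c)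

/-- The unit. -/
def oneK (A : VBC X.Z) : CochHom A A 0 := subM.mk (oneC A) (isCoch_one A)

/-- The composition. -/
def compK {A B C : VBC X.Z} {n m l : ℤ} (h : n + m = l) (c : CochHom B C n) (c' : CochHom A B m) :
    CochHom A C l := subM.mk (cup m (subM.val c) (subM.val c')) (isCoch_cup h c c')

/-- The differential. -/
def dK {A B : VBC X.Z} {n m : ℤ} (h : n + 1 = m) (c : CochHom A B n) : CochHom A B m :=
  subM.mk (dC n (subM.val c)) (isCoch_d h c)

end

end Pool.Agent.Helper17.RZF
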