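import Pool.Agent.Helper17.RZF.CechP5

/-!
# MP_77656e_ag: the Cech DG category of bounded complexes of vector bundles

Definitions used in the statement of the final theorem.
-/

set_option autoImplicit false

open AlgebraicGeometry CategoryTheory TopologicalSpace Opposite

namespace Pool.Agent.Helper17.RZF

open Pool.Agent.Helper17.RZ.Sch (CSch VBC IsVB)

universe u

noncomputable section

variable {k : Type u} [Field k]

theorem isDG_cech (X : CSch.{u} k) : IsDG (Obj := VBC X.Z) CochHom oneK (@compK k _ X) (@dK k _ X) :=
  Pf.isDG_cech X

/-- The DG category of bounded complexes of vector bundles on the scheme `X.Z`, with the Cech cochains for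
the affine open covering `X.U` as morphisms. -/
def cech (X : CSch.{u} k) : DGCat.{u, u + 1, u} k where
  Obj := VBC X.Z
  Hom := CochHom
  one := oneK
  comp := @compK k _ X
  d := @dK k _ X
  ax := isDG_cech X

end

end Pool.Agent.Helper17.RZF
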