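import Pool.Agent.Helper17.RZF.Cech1
import Pool.Agent.Helper17.RZ.Loc

/-!
# MP_77656e_ag: morphisms of sheaves of modules over open subsets (proofs)
-/

set_option autoImplicit false

open AlgebraicGeometry CategoryTheory TopologicalSpace Opposite

namespace Pool.Agent.Helper17.RZF.Pf

open Pool.Agent.Helper17.RZ.Sch (CSch VBC IsVB)

universe u

noncomputable section

section Sheaves

variable {Z : Scheme.{u}}

theorem rs_add {E : Z.Modules} {W W' : Z.Opens} (h : Sub W' W) (s t : sc E W) :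
    rs h (s + t) = rs h s + rs h t := map_add (E.presheaf.map (homOfLE h).op).hom s t

theorem rs_zero {E : Z.Modules} {W W' : Z.Opens} (h : Sub W' W) : rs h (0 : sc E W) = 0 :=
  map_zero (E.presheaf.map (homOfLE h).op).hom

theorem rs_sm {E : Z.Modules} {W W' : Z.Opens} (h : Sub W' W) (r : fn W) (s : sc E W) :
    rs h (sm r s) = sm (show fn W' from Z.presheaf.map (homOfLE h).op r) (rs h s) :=
  Scheme.Modules.map_smul E (homOfLE h) r s

theorem mo_add {E F : Z.Modules} (g : E ⟶ F) (W : Z.Opens) (s t : sc E W) :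
    mo g W (s + t) = mo g W s + mo g W t := map_add (g.app W).hom s t

theorem mo_sm {E F : Z.Modules} (g : E ⟶ F) (W : Z.Opens) (r : fn W) (s : sc E W) :
    mo g W (sm r s) = sm r (mo g W s) := Scheme.Modules.Hom.app_smul g r s

theorem mo_rs {E F : Z.Modules} (g : E ⟶ F) {W W' : Z.Opens} (h : Sub W' W) (s : sc E W) :
    mo g W' (rs h s) = rs h (mo g W s) :=
  ConcreteCategory.congr_hom (g.mapPresheaf.naturality (homOfLE h).op) s

theorem sm_add {E : Z.Modules} {W : Z.Opens} (r : fn W) (s t : sc E W) :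
    sm r (s + t) = sm r s + sm r t := smul_add (M := fn W) (A := sc E W) r s t

theorem sm_zero {E : Z.Modules} {W : Z.Opens} (r : fn W) : sm r (0 : sc E W) = 0 :=
  smul_zero (M := fn W) (A := sc E W) r

theorem sm_comm {E : Z.Modules} {W : Z.Opens} (r r' : fn W) (s : sc E W) :
    sm r (sm r' s) = sm r' (sm r s) := smul_comm (M := fn W) (N := fn W) (α := sc E W) r r' s

end Sheaves

variable {k : Type u} [Field k] {X : CSch.{u} k}

theorem cst_res {W W' : X.Z.Opens} (h : Sub W' W) (c : k) :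
    X.Z.presheaf.map (homOfLE h).op (cst X W c) = cst X W' c := by
  have h1 : (Scheme.ΓSpecIso (CommRingCat.of k)).inv ≫ X.f.appLE ⊤ W (le_pre X W) ≫
      X.Z.presheaf.map (homOfLE h).op =
      (Scheme.ΓSpecIso (CommRingCat.of k)).inv ≫ X.f.appLE ⊤ W' (le_pre X W') := by
    rw [Scheme.Hom.appLE_map]
  exact ConcreteCategory.congr_hom h1 c

theorem smul_def {E : X.Z.Modules} {W : X.Z.Opens} (c : k) (s : sec E W) :
    c • s = sm (E := E) (cst X W c) s := rfl

theorem isMor_zero (E F : X.Z.Modules) (U : X.Z.Opens) : IsMor (0 : Fam E F U) := by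
  refine ⟨fun {W} h s t => ?_, fun {W} h r s => ?_, fun h h' s => ?_⟩
  · change (0 : sec F W) = 0 + 0
    rw [add_zero]
  · exact (sm_zero r).symm
  · exact (rs_zero _).symm

theorem isMor_add {E F : X.Z.Modules} {U : X.Z.Opens} {φ ψ : Fam E F U} (hφ : IsMor φ) (hψ : IsMor ψ) :
    IsMor (φ + ψ) := by
  refine ⟨fun h s t => ?_, fun h r s => ?_, fun h h' s => ?_⟩
  · change mem φ h (add s t) + mem ψ h (add s t) = (mem φ h s + mem ψ h s) + (mem φ h t + mem ψ h t)
    rw [hφ.add, hψ.add]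
    change (_ + _) + (_ + _) = _
    abel
  · change mem φ h (sm (E := E) r s) + mem ψ h (sm (E := E) r s) = sm (E := F) r (mem φ h s + mem ψ h s)
    rw [hφ.smul, hψ.smul]
    exact (sm_add r _ _).symm
  · change mem φ _ _ + mem ψ _ _ = rs (E := F) h' (mem φ h s + mem ψ h s)
    rw [hφ.res h, hψ.res h]; exact (rs_add h' _ _).symm

theorem isMor_smul {E F : X.Z.Modules} {U : X.Z.Opens} (c : k) {φ : Fam E F U} (hφ : IsMor φ) :
    IsMor (c • φ) := by
  refine ⟨fun h s t => ?_, fun h r s => ?_, fun {W W'} h h' s => ?_⟩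
  · change c • mem φ h (add s t) = c • mem φ h s + c • mem φ h t
    rw [hφ.add]
    exact smul_add _ _ _
  · change c • mem φ h (sm (E := E) r s) = sm (E := F) r (c • mem φ h s)
    rw [hφ.smul]
    exact sm_comm _ _ _
  · change c • mem φ _ _ = rs (E := F) h' (c • mem φ h s)
    rw [hφ.res h, smul_def, smul_def]
    refine Eq.trans ?_ (rs_sm h' (cst X W c) (mem φ h s)).symm
    rw [cst_res h']

theorem isMor_res {E F : X.Z.Modules} {U U' : X.Z.Opens} (h : Sub U' U) {φ : Fam E F U} (hφ : IsMor φ) :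
    IsMor (resF h φ) :=
  ⟨fun h' s t => hφ.add (h'.trans h) s t, fun h' r s => hφ.smul (h'.trans h) r s,
    fun h' h'' s => hφ.res (h'.trans h) h'' s⟩

theorem isMor_comp {E F G : X.Z.Modules} {U : X.Z.Opens} {φ : Fam F G U} {ψ : Fam E F U} (hφ : IsMor φ)
    (hψ : IsMor ψ) : IsMor (compF φ ψ) := by
  refine ⟨fun h s t => ?_, fun h r s => ?_, fun h h' s => ?_⟩
  · change mem φ h (mem ψ h (add s t)) = add (mem φ h (mem ψ h s)) (mem φ h (mem ψ h t))
    rw [hψ.add, hφ.add]
  · change mem φ h (mem ψ h (sm (E := E) r s)) = sm (E := G) r (mem φ h (mem ψ h s))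
    rw [hψ.smul, hφ.smul]
  · change mem φ _ (mem ψ _ _) = rs (E := G) h' (mem φ h (mem ψ h s))
    rw [hψ.res h, hφ.res h]

theorem isMor_of {E F : X.Z.Modules} (g : E ⟶ F) (U : X.Z.Opens) : IsMor (ofF g U) :=
  ⟨fun {W} _ s t => mo_add g W s t, fun {W} _ r s => mo_sm g W r s, fun _ h' s => mo_rs g h' s⟩

end

end Pool.Agent.Helper17.RZF.Pf
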