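import Pool.Agent.Helper17.RZF.Cech2

/-!
# MP_77656e_ag: Cech cochains (proofs)
-/

set_option autoImplicit false

open AlgebraicGeometry CategoryTheory TopologicalSpace Opposite

namespace Pool.Agent.Helper17.RZF.Pf

open Pool.Agent.Helper17.RZ.Sch (CSch VBC IsVB)

universe u

noncomputable section

variable {k : Type u} [Field k] {X : CSch.{u} k}

theorem lo_card_add (σ : Finset X.I) (l : X.I) (h : l ∈ σ) :
    (lo σ l).card + (hi σ l).card = σ.card + 1 := Pool.Agent.Helper17.RZ.card_lo_add_hi σ l h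

theorem homOn_ext {E F : X.Z.Modules} {U : X.Z.Opens} {φ ψ : HomOn E F U}
    (h : ∀ (W : X.Z.Opens) (hW : Sub W U) (s : sec E W), mem φ.1 hW s = mem ψ.1 hW s) : φ = ψ :=
  Subtype.ext (funext fun W => funext fun s => h W.1 W.2 s)

theorem mem_zero {E F : X.Z.Modules} {U : X.Z.Opens} (φ : HomOn E F U) {W : X.Z.Opens} (hW : Sub W U) :
    mem φ.1 hW 0 = 0 := by
  have h := (subM.prop φ).add hW 0 0
  change mem φ.1 hW (0 + 0) = mem φ.1 hW 0 + mem φ.1 hW 0 at h
  rw [add_zero] at h
  exact left_eq_add.mp h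

theorem comp_zero {E F G : X.Z.Modules} {U : X.Z.Opens} (φ : HomOn F G U) :
    comp φ (0 : HomOn E F U) = 0 := homOn_ext fun _ hW _ => mem_zero φ hW

theorem zero_comp {E F G : X.Z.Modules} {U : X.Z.Opens} (φ : HomOn E F U) :
    comp (0 : HomOn F G U) φ = 0 := rfl

theorem res_zero {E F : X.Z.Modules} {U U' : X.Z.Opens} (h : Sub U' U) :
    res h (0 : HomOn E F U) = 0 := rfl

theorem isCoch_zero (A B : VBC X.Z) (n : ℤ) : IsCoch n (0 : Coch A B) := fun _ _ _ _ => rfl

theorem isCoch_add {A B : VBC X.Z} {n : ℤ} {c c' : Coch A B} (hc : IsCoch n c) (hc' : IsCoch n c') :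
    IsCoch n (c + c') := fun σ i j h => by
  change cell c σ i j + cell c' σ i j = 0
  rw [hc σ i j h, hc' σ i j h]; exact add_zero 0

theorem isCoch_smul {A B : VBC X.Z} {n : ℤ} (a : k) {c : Coch A B} (hc : IsCoch n c) :
    IsCoch n (a • c) := fun σ i j h => by
  change a • cell c σ i j = 0
  rw [hc σ i j h]; exact smul_zero a

theorem isCoch_one (A : VBC X.Z) : IsCoch 0 (oneC A) := by
  intro σ i j h
  refine dif_neg fun (h' : σ.card = 1 ∧ i = j) => ?_
  rcases h with rfl | h
  · exact absurd h'.1 (by simp)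
  · apply h; rw [h'.1, h'.2]; simp

theorem isCoch_cup {A B C : VBC X.Z} {n m l : ℤ} (h : n + m = l) {c : Coch B C} {c' : Coch A B}
    (hc : IsCoch n c) : IsCoch l (cup m c c') := by
  intro σ i j h'
  refine Finset.sum_eq_zero fun a ha => ?_
  have h1 := lo_card_add σ a ha
  rcases h' with rfl | h'
  · exact absurd ha (Finset.notMem_empty a)
  · change comp (res _ (cell c (lo σ a) (i + m + 1 - (hi σ a).card) j)) _ = 0
    rw [hc (lo σ a) _ _ (Or.inr (by omega))]; rfl

theorem isCoch_d {A B : VBC X.Z} {n m : ℤ} (h : n + 1 = m) {c : Coch A B} (hc : IsCoch n c) :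
    IsCoch m (dC n c) := by
  intro σ i j h'
  have h1 : cell (del c) σ i j = 0 := by
    refine Finset.sum_eq_zero fun a ha => ?_
    change (pos σ a).negOnePow • res _ (cell c (er σ a) i j) = 0
    have h2 : (er σ a).card + 1 = σ.card := Finset.card_erase_add_one ha
    rcases h' with rfl | h'
    · exact absurd ha (Finset.notMem_empty a)
    · rw [hc (er σ a) _ _ (Or.inr (by omega))]; exact smul_zero _
  have h2 : comp (of (df B (j - 1) j) (Us X σ)) (cell c σ i (j - 1)) = 0 := by
    rw [hc σ i (j - 1) (h'.imp id fun h' => by omega)]; exact comp_zero _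
  have h3 : comp (cell c σ (i + 1) j) (of (df A i (i + 1)) (Us X σ)) = 0 := by
    rw [hc σ (i + 1) j (h'.imp id fun h' => by omega)]; exact zero_comp _
  change add (add (sgn j (cell (del c) σ i j)) (comp (of (df B (j - 1) j) (Us X σ)) (cell c σ i (j - 1))))
    (sgn (n + 1) (comp (cell c σ (i + 1) j) (of (df A i (i + 1)) (Us X σ)))) = 0
  rw [h1, h2, h3]
  change j.negOnePow • (0 : Cell A B σ (i, j)) + 0 + (n + 1).negOnePow • (0 : Cell A B σ (i, j)) = 0
  rw [smul_zero, smul_zero, add_zero, add_zero]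

end

end Pool.Agent.Helper17.RZF.Pf
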