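import Pool.Agent.Helper17.RZF.Cech3
import Pool.Agent.Helper17.RZ.Sch.Compare

/-!
# MP_77656e_ag: germs at the generic point of morphisms over open subsets (proofs)
-/

set_option autoImplicit false

open AlgebraicGeometry CategoryTheory TopologicalSpace Opposite

namespace Pool.Agent.Helper17.RZF.Pf

open Pool.Agent.Helper17.RZ.Sch

universe u

noncomputable section

variable {k : Type u} [Field k] {X : CSch.{u} k}

/-- the value of a morphism on a section -/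
def ev {E F : X.Z.Modules} {U : X.Z.Opens} (φ : HomOn E F U) {W : X.Z.Opens} (hW : W ≤ U) (s : Γ(E, W)) :
    Γ(F, W) := mem (subM.val φ) hW s

theorem ev_add {E F : X.Z.Modules} {U : X.Z.Opens} (φ : HomOn E F U) {W : X.Z.Opens} (hW : W ≤ U)
    (s t : Γ(E, W)) : ev φ hW (s + t) = ev φ hW s + ev φ hW t := (subM.prop φ).add hW s t

theorem ev_smul {E F : X.Z.Modules} {U : X.Z.Opens} (φ : HomOn E F U) {W : X.Z.Opens} (hW : W ≤ U)
    (r : Γ(X.Z, W)) (s : Γ(E, W)) : ev φ hW (r • s) = r • ev φ hW s := (subM.prop φ).smul hW r s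

theorem ev_rs {E F : X.Z.Modules} {U : X.Z.Opens} (φ : HomOn E F U) {W W' : X.Z.Opens} (hW : W ≤ U)
    (h' : W' ≤ W) (s : Γ(E, W)) : ev φ (h'.trans hW) (E.presheaf.map (homOfLE h').op s) =
      F.presheaf.map (homOfLE h').op (ev φ hW s) := (subM.prop φ).res hW h' s

theorem ev_zero' {E F : X.Z.Modules} {U : X.Z.Opens} {W : X.Z.Opens} (hW : W ≤ U) (s : Γ(E, W)) :
    ev (0 : HomOn E F U) hW s = 0 := rfl

theorem ev_add' {E F : X.Z.Modules} {U : X.Z.Opens} (φ ψ : HomOn E F U) {W : X.Z.Opens} (hW : W ≤ U)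
    (s : Γ(E, W)) : ev (φ + ψ) hW s = ev φ hW s + ev ψ hW s := rfl

theorem ev_smul' {E F : X.Z.Modules} {U : X.Z.Opens} (c : k) (φ : HomOn E F U) {W : X.Z.Opens} (hW : W ≤ U)
    (s : Γ(E, W)) : ev (c • φ) hW s = (show Γ(X.Z, W) from cst X W c) • ev φ hW s := rfl

theorem ev_comp {E F G : X.Z.Modules} {U : X.Z.Opens} (φ : HomOn F G U) (ψ : HomOn E F U) {W : X.Z.Opens}
    (hW : W ≤ U) (s : Γ(E, W)) : ev (comp φ ψ) hW s = ev φ hW (ev ψ hW s) := rfl

theorem ev_res {E F : X.Z.Modules} {U U' : X.Z.Opens} (i : Sub U' U) (φ : HomOn E F U) {W : X.Z.Opens}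
    (hW : W ≤ U') (s : Γ(E, W)) : ev (res i φ) hW s = ev φ (hW.trans i) s := rfl

theorem ev_of {E F : X.Z.Modules} (U : X.Z.Opens) (g : E ⟶ F) {W : X.Z.Opens}
    (hW : W ≤ U) (s : Γ(E, W)) : ev (of g U) hW s = g.app W s := rfl

/-- existence of the germ -/
theorem gl_ex {E F : X.Z.Modules} {U : X.Z.Opens} (h : X.eta ∈ U) (φ : HomOn E F U) (v : X.st E) :
    ∃ w : X.st F, ∀ (W : X.Z.Opens) (hW : W ≤ U) (hη : X.eta ∈ W) (s : Γ(E, W)), X.gm E W hη s = v →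
      X.gm F W hη (ev φ hW s) = w := by
  obtain ⟨W, hW, hη, s, hs⟩ := X.exists_gm_le E v U h
  refine ⟨X.gm F W hη (ev φ hW s), ?_⟩
  intro W' hW' hη' s' hs'
  obtain ⟨V, hV, i, i', hh⟩ := X.gm_eq E hη' hη s' s (hs'.trans hs.symm)
  have h1 := ev_rs φ hW' i s'
  have h2 := ev_rs φ hW i' s
  rw [hh] at h1
  rw [← X.gm_res F hη' i hV (ev φ hW' s'), ← X.gm_res F hη i' hV (ev φ hW s), ← h1, ← h2]

/-- the germ of a morphism, as a function -/
def gf {E F : X.Z.Modules} {U : X.Z.Opens} (h : X.eta ∈ U) (φ : HomOn E F U) (v : X.st E) : X.st F :=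
  (gl_ex h φ v).choose

theorem gf_gm {E F : X.Z.Modules} {U : X.Z.Opens} (h : X.eta ∈ U) (φ : HomOn E F U) {W : X.Z.Opens}
    (hW : W ≤ U) (hη : X.eta ∈ W) (s : Γ(E, W)) :
    gf h φ (X.gm E W hη s) = X.gm F W hη (ev φ hW s) :=
  ((gl_ex h φ (X.gm E W hη s)).choose_spec W hW hη s rfl).symm

/-- two elements of the stalk are represented over the same open subset -/
theorem two {E : X.Z.Modules} {U : X.Z.Opens} (h : X.eta ∈ U) (v w : X.st E) :
    ∃ (W : X.Z.Opens) (_ : W ≤ U) (hη : X.eta ∈ W) (s t : Γ(E, W)), X.gm E W hη s = v ∧ X.gm E W hη t = w := by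
  obtain ⟨W, hW, hη, s, hs⟩ := X.exists_gm_le E v U h
  obtain ⟨W', hW', hη', t, ht⟩ := X.exists_gm_le E w W hη
  exact ⟨W', hW'.trans hW, hη', E.presheaf.map (homOfLE hW').op s, t,
    by rw [X.gm_res E hη hW' hη', hs], ht⟩

/-- the germ of a morphism -/
def gl {E F : X.Z.Modules} {U : X.Z.Opens} (h : X.eta ∈ U) (φ : HomOn E F U) : X.st E →ₗ[X.K] X.st F where
  toFun := gf h φ
  map_add' v w := by
    obtain ⟨W, hW, hη, s, t, rfl, rfl⟩ := two h v w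
    rw [← map_add, gf_gm h φ hW, gf_gm h φ hW, gf_gm h φ hW, ← map_add, ev_add]
  map_smul' c v := by
    obtain ⟨W, hW, hη, s, rfl⟩ := X.exists_gm_le E v U h
    obtain ⟨V, hV, h', r, rfl⟩ := X.exists_gr_le c W hη
    rw [RingHom.id_apply, ← X.gm_res E hη hV h' s, ← X.gm_smul, gf_gm h φ (hV.trans hW),
      gf_gm h φ (hV.trans hW), ← X.gm_smul, ev_smul]

theorem gl_gm {E F : X.Z.Modules} {U : X.Z.Opens} (h : X.eta ∈ U) (φ : HomOn E F U) {W : X.Z.Opens}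
    (hW : W ≤ U) (hη : X.eta ∈ W) (s : Γ(E, W)) :
    gl h φ (X.gm E W hη s) = X.gm F W hη (ev φ hW s) := gf_gm h φ hW hη s

theorem gl_zero {E F : X.Z.Modules} {U : X.Z.Opens} (h : X.eta ∈ U) : gl h (0 : HomOn E F U) = 0 := by
  ext v
  obtain ⟨W, hW, hη, s, rfl⟩ := X.exists_gm_le E v U h
  rw [gl_gm h _ hW, ev_zero', map_zero]
  rfl

theorem gl_add {E F : X.Z.Modules} {U : X.Z.Opens} (h : X.eta ∈ U) (φ ψ : HomOn E F U) :
    gl h (φ + ψ) = gl h φ + gl h ψ := by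
  ext v
  obtain ⟨W, hW, hη, s, rfl⟩ := X.exists_gm_le E v U h
  rw [LinearMap.add_apply, gl_gm h _ hW, gl_gm h _ hW, gl_gm h _ hW, ← map_add, ev_add']

theorem gr_cst {W : X.Z.Opens} (hη : X.eta ∈ W) (c : k) :
    X.gr W hη (cst X W c) = algebraMap k X.K c := by
  have h1 := cst_res (X := X) (show Sub W ⊤ from le_top) c
  rw [← h1]
  refine (X.gr_res (W := ⊤) trivial le_top hη _).trans ?_
  have h2 : cst X ⊤ c = X.cst c := by
    have h3 : X.f.appLE ⊤ ⊤ (le_pre X ⊤) = X.f.appTop := Scheme.Hom.appLE_eq_app (f := X.f) (U := ⊤)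
    unfold cst CSch.cst
    rw [h3]
    rfl
  rw [h2]
  rfl

theorem gl_smul {E F : X.Z.Modules} {U : X.Z.Opens} (h : X.eta ∈ U) (c : k) (φ : HomOn E F U)
    (v : X.st E) : gl h (c • φ) v = algebraMap k X.K c • gl h φ v := by
  obtain ⟨W, hW, hη, s, rfl⟩ := X.exists_gm_le E v U h
  rw [gl_gm h _ hW, gl_gm h _ hW, ← gr_cst hη, ev_smul']
  exact X.gm_smul F W hη (cst X W c) _

theorem gl_inj {E F : X.Z.Modules} (hF : IsVB F) {U : X.Z.Opens} (h : X.eta ∈ U) {φ ψ : HomOn E F U}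
    (H : gl h φ = gl h ψ) : φ = ψ := by
  refine homOn_ext fun W hW s => ?_
  by_cases hη : X.eta ∈ W
  · apply X.gm_injective F hF W hη
    exact (gl_gm h φ hW hη s).symm.trans ((congrArg (fun f => f (X.gm E W hη s)) H).trans
      (gl_gm h ψ hW hη s))
  · have : Subsingleton Γ(F, W) := subsingleton_of_empty F W fun x hx => hη (X.eta_mem hx)
    exact Subsingleton.elim (α := Γ(F, W)) _ _

theorem gl_sec {E F : X.Z.Modules} {U : X.Z.Opens} (h : X.eta ∈ U) (φ : HomOn E F U) (W : X.Z.Opens)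
    (hW : W ≤ U) (v : X.st E) (hv : v ∈ X.sec E W) : gl h φ v ∈ X.sec F W := by
  intro hη
  obtain ⟨s, rfl⟩ := hv hη
  exact ⟨ev φ hW s, (gl_gm h φ hW hη s).symm⟩

theorem gl_surj {E F : X.Z.Modules} (hF : IsVB F) {U : X.Z.Opens} (h : X.eta ∈ U)
    (f : X.st E →ₗ[X.K] X.st F) (H : ∀ W ≤ U, ∀ v ∈ X.sec E W, f v ∈ X.sec F W) :
    ∃ φ : HomOn E F U, gl h φ = f := by
  classical
  have hex : ∀ (W : Opn U) (s : Γ(E, W.1)), ∃ t : Γ(F, W.1),
      ∀ hη : X.eta ∈ W.1, X.gm F _ hη t = f (X.gm E _ hη s) := by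
    intro W s
    by_cases hη : X.eta ∈ W.1
    · obtain ⟨t, ht⟩ := H _ W.2 _ (X.gm_mem_sec E _ hη s) hη
      exact ⟨t, fun _ => ht⟩
    · exact ⟨0, fun h' => absurd h' hη⟩
  choose g hg using hex
  have huniq : ∀ (W : X.Z.Opens) (t t' : Γ(F, W)),
      (∀ h : X.eta ∈ W, X.gm F _ h t = X.gm F _ h t') → t = t' := by
    intro W t t' ht
    by_cases h : X.eta ∈ W
    · exact X.gm_injective F hF _ h (ht h)
    · have := subsingleton_of_empty F W (fun x hx => h (X.eta_mem hx))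
      exact Subsingleton.elim _ _
  have hg' : ∀ (W : X.Z.Opens) (hW : Sub W U) (s : Γ(E, W)) (hη : X.eta ∈ W),
      X.gm F _ hη (g ⟨W, hW⟩ s) = f (X.gm E _ hη s) := fun W hW s hη => hg ⟨W, hW⟩ s hη
  have key1 : ∀ (W : X.Z.Opens) (hW : Sub W U) (s t : Γ(E, W)),
      g ⟨W, hW⟩ (s + t) = g ⟨W, hW⟩ s + g ⟨W, hW⟩ t := fun W hW s t => huniq W _ _ fun hη => by
    rw [hg' W hW, map_add, map_add, map_add, hg' W hW, hg' W hW]
  have key2 : ∀ (W : X.Z.Opens) (hW : Sub W U) (r : Γ(X.Z, W)) (s : Γ(E, W)),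
      g ⟨W, hW⟩ (r • s) = r • g ⟨W, hW⟩ s := fun W hW r s => huniq W _ _ fun hη => by
    rw [hg' W hW, X.gm_smul, X.gm_smul, hg' W hW, map_smul]
  have key3 : ∀ (W W' : X.Z.Opens) (hW : Sub W U) (h' : W' ≤ W) (s : Γ(E, W)),
      g ⟨W', Sub.trans h' hW⟩ (E.presheaf.map (homOfLE h').op s) =
        F.presheaf.map (homOfLE h').op (g ⟨W, hW⟩ s) := fun W W' hW h' s => huniq W' _ _ fun hη => by
    rw [hg' W' _, X.gm_res E (h' hη) h' hη, X.gm_res F (h' hη) h' hη, hg' W hW]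
  refine ⟨subM.mk (M := Fam E F U) (fun W s => g W s) ⟨fun {W} hW s t => key1 W hW s t,
    fun {W} hW r s => key2 W hW r s, fun {W W'} hW h' s => key3 W W' hW h' s⟩, ?_⟩
  ext v
  obtain ⟨W, hW, hη, s, rfl⟩ := X.exists_gm_le E v U h
  refine (gl_gm h _ hW hη s).trans ?_
  exact hg' W hW s hη

theorem gl_comp {E F G : X.Z.Modules} {U : X.Z.Opens} (h : X.eta ∈ U) (φ : HomOn F G U) (ψ : HomOn E F U)
    (v : X.st E) : gl h (comp φ ψ) v = gl h φ (gl h ψ v) := by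
  obtain ⟨W, hW, hη, s, rfl⟩ := X.exists_gm_le E v U h
  rw [gl_gm h _ hW hη s, gl_gm h _ hW hη s, gl_gm h _ hW hη, ev_comp]

theorem gl_res {E F : X.Z.Modules} {U U' : X.Z.Opens} (h : X.eta ∈ U) (h' : X.eta ∈ U') (i : Sub U' U)
    (φ : HomOn E F U) : gl h' (res i φ) = gl h φ := by
  ext v
  obtain ⟨W, hW, hη, s, rfl⟩ := X.exists_gm_le E v U' h'
  rw [gl_gm h' _ hW hη s, gl_gm h _ (hW.trans i) hη s, ev_res]

theorem gl_of {E F : X.Z.Modules} {U : X.Z.Opens} (h : X.eta ∈ U) (g : E ⟶ F) :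
    gl h (of g U) = X.sm g := by
  ext v
  obtain ⟨W, hW, hη, s, rfl⟩ := X.exists_gm_le E v U h
  rw [gl_gm h _ hW hη s, X.sm_gm, ev_of]

theorem gl_sgn {E F : X.Z.Modules} {U : X.Z.Opens} (h : X.eta ∈ U) (n : ℤ) (φ : HomOn E F U) :
    gl h (sgn n φ) = n.negOnePow • gl h φ := by
  unfold sgn
  rcases Int.units_eq_one_or n.negOnePow with h1 | h1
  · rw [h1, one_smul, one_smul]
  · have h2 : gl h (-φ) = - gl h φ := by
      rw [eq_neg_iff_add_eq_zero, ← gl_add, neg_add_cancel, gl_zero]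
    rw [h1]
    simp only [Units.neg_smul, one_smul]
    exact h2

theorem gl_sum {E F : X.Z.Modules} {U : X.Z.Opens} (h : X.eta ∈ U) (σ : Finset X.I)
    (f : X.I → HomOn E F U) : gl h (sum σ f) = ∑ l ∈ σ, gl h (f l) := by
  classical
  unfold sum
  induction σ using Finset.induction_on with
  | empty => rw [Finset.sum_empty, Finset.sum_empty, gl_zero]
  | insert a s ha ih => rw [Finset.sum_insert ha, Finset.sum_insert ha, gl_add, ih]

end

end Pool.Agent.Helper17.RZF.Pf
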