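import Pool.Agent.Helper17.RZF.CechP3

/-!
# MP_77656e_ag: the matrices of germs of a Cech cochain (proofs)
-/

set_option autoImplicit false

open AlgebraicGeometry CategoryTheory TopologicalSpace Opposite

namespace Pool.Agent.Helper17.RZF.Pf

open Pool.Agent.Helper17.RZ.Sch

universe u

noncomputable section

variable {k : Type u} [Field k] {X : CSch.{u} k}

/-- the generic point belongs to all `U_σ` -/
theorem etaU (σ : Finset X.I) : X.eta ∈ Us X σ := X.eta_mem_Us σ

/-- the germ of a component -/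
def gc {A B : VBC X.Z} (c : Coch A B) (σ : Finset X.I) (i j : ℤ) :
    X.st (A.C.X i) →ₗ[X.K] X.st (B.C.X j) := gl (etaU σ) (cell c σ i j)

/-- the matrix of germs -/
def T {A B : VBC X.Z} (c : Coch A B) (σ : Finset X.I) : A.G.V →ₗ[X.K] B.G.V :=
  ∑ i ∈ Finset.Icc (-(A.bd : ℤ)) A.bd, ∑ j ∈ Finset.Icc (-(B.bd : ℤ)) B.bd,
    B.inj j ∘ₗ gc c σ i j ∘ₗ A.prj i

theorem mem_or {Z : Scheme.{u}} (A : VBC Z) (i : ℤ) : i ∈ Finset.Icc (-(A.bd : ℤ)) A.bd ∨ (A.bd : ℤ) < |i| := by
  rw [Finset.mem_Icc, ← abs_le]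
  exact le_or_gt _ _

theorem T_mat {A B : VBC X.Z} (c : Coch A B) (σ : Finset X.I) (i j : ℤ) (v : X.st (A.C.X i)) :
    B.prj j (T c σ (A.inj i v)) = gc c σ i j v := by
  rcases mem_or A i with hi | hi
  · rcases mem_or B j with hj | hj
    · unfold T
      rw [LinearMap.sum_apply, map_sum, Finset.sum_eq_single_of_mem i hi]
      · rw [LinearMap.sum_apply, map_sum, Finset.sum_eq_single_of_mem j hj]
        · simp only [LinearMap.comp_apply]
          rw [B.prj_inj, A.prj_inj]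
        · intro b _ hb
          simp only [LinearMap.comp_apply]
          rw [B.prj_inj_ne b j hb]
      · intro b _ hb
        rw [LinearMap.sum_apply, map_sum]
        refine Finset.sum_eq_zero fun l _ => ?_
        simp only [LinearMap.comp_apply]
        rw [A.prj_inj_ne i b (Ne.symm hb), map_zero, map_zero, map_zero]
    · have := X.st_subsingleton (B.bounded j hj)
      exact Subsingleton.elim _ _
  · have := X.st_subsingleton (A.bounded i hi)
    rw [Subsingleton.elim v 0, map_zero, map_zero, map_zero, map_zero]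

theorem ext_prj (B : VBC X.Z) {x y : B.G.V} (h : ∀ j, B.prj j x = B.prj j y) : x = y := by
  rw [B.sum_inj_prj x, B.sum_inj_prj y]
  exact Finset.sum_congr rfl fun j _ => by rw [h j]

theorem ext_mat {A B : VBC X.Z} {f g : A.G.V →ₗ[X.K] B.G.V}
    (h : ∀ i j v, B.prj j (f (A.inj i v)) = B.prj j (g (A.inj i v))) : f = g :=
  A.ext_inj fun i v => ext_prj B fun j => h i j v

theorem T_eq_iff {A B : VBC X.Z} (c : Coch A B) (σ : Finset X.I) (f : A.G.V →ₗ[X.K] B.G.V)
    (h : ∀ i j v, B.prj j (f (A.inj i v)) = gc c σ i j v) : T c σ = f :=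
  ext_mat fun i j v => (T_mat c σ i j v).trans (h i j v).symm

theorem isDeg_iff {A B : VBC X.Z} (n : ℤ) (f : A.G.V →ₗ[X.K] B.G.V) :
    RZ.IsDeg (X := A.G) (Y := B.G) n f ↔ ∀ i j v, j ≠ i + n → B.prj j (f (A.inj i v)) = 0 := by
  constructor
  · intro h i j v hj
    have h1 := congrArg (fun g => B.prj j (g (A.inj i v))) (h i)
    simp only [LinearMap.comp_apply, VBC.G_pr, A.prj_inj, B.prj_inj_ne _ _ (Ne.symm hj)] at h1
    exact h1
  · intro h i
    refine ext_mat fun l j v => ?_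
    simp only [LinearMap.comp_apply, VBC.G_pr]
    by_cases hl : l = i
    · subst hl
      rw [A.prj_inj]
      by_cases hj : j = l + n
      · subst hj; rw [B.prj_inj]
      · rw [B.prj_inj_ne _ _ (Ne.symm hj), h l j v hj]
    · rw [A.prj_inj_ne l i hl, map_zero, map_zero, map_zero]
      by_cases hj : j = i + n
      · subst hj; rw [B.prj_inj, h l (i + n) v (by omega)]
      · rw [B.prj_inj_ne _ _ (Ne.symm hj)]

theorem gc_zero {A B : VBC X.Z} {c : Coch A B} {σ : Finset X.I} {i j : ℤ} (h : cell c σ i j = 0) :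
    gc c σ i j = 0 := by
  unfold gc; rw [h]; exact gl_zero _

theorem T_mem {A B : VBC X.Z} {n : ℤ} {c : Coch A B} (hc : IsCoch n c) : T c ∈ X.sys.Hom A B n := by
  refine ⟨T_eq_iff c ∅ 0 fun i j v => ?_, fun σ _ => ⟨?_, ?_⟩⟩
  · rw [gc_zero (hc ∅ i j (Or.inl rfl))]
    simp only [LinearMap.zero_apply, map_zero]
  · intro i j
    rw [X.isGerm_iff _ _ (B.vb j)]
    intro W hW v hv
    have h1 : (B.prj j ∘ₗ T c σ ∘ₗ A.inj i) v = gc c σ i j v := T_mat c σ i j v
    rw [h1]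
    exact gl_sec (etaU σ) _ W hW v hv
  · refine (isDeg_iff _ _).mpr fun i j v hj => ?_
    rw [T_mat, gc_zero (hc σ i j (Or.inr (by omega)))]
    rfl

theorem T_inj {A B : VBC X.Z} {c c' : Coch A B} (h : ∀ σ, T c σ = T c' σ) : c = c' := by
  funext σ p
  obtain ⟨i, j⟩ := p
  refine gl_inj (B.vb j) (etaU σ) (φ := cell c σ i j) (ψ := cell c' σ i j) ?_
  ext v
  refine (T_mat c σ i j v).symm.trans (Eq.trans ?_ (T_mat c' σ i j v))
  rw [h σ]

theorem T_surj {A B : VBC X.Z} {n : ℤ} (F : Finset X.I → (A.G.V →ₗ[X.K] B.G.V)) (hF : F ∅ = 0)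
    (hF' : ∀ σ : Finset X.I, σ.Nonempty → F σ ∈ A.H B σ ∧
      RZ.IsDeg (X := A.G) (Y := B.G) (n - ((σ.card : ℤ) - 1)) (F σ)) :
    ∃ c : Coch A B, IsCoch n c ∧ T c = F := by
  classical
  have hex : ∀ (σ : Finset X.I) (p : ℤ × ℤ), ∃ φ : Cell A B σ p,
      gl (etaU σ) φ = B.prj p.2 ∘ₗ F σ ∘ₗ A.inj p.1 := by
    intro σ p
    rcases σ.eq_empty_or_nonempty with rfl | hσ
    · refine ⟨0, (gl_zero _).trans ?_⟩
      rw [hF, LinearMap.zero_comp, LinearMap.comp_zero]
      rfl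
    · refine gl_surj (B.vb p.2) (etaU σ) _ ?_
      exact X.sec_of_isGerm _ _ _ _ ((hF' σ hσ).1 p.1 p.2)
  choose c hc using hex
  have hc' : ∀ σ i j, gc (show Coch A B from c) σ i j = B.prj j ∘ₗ F σ ∘ₗ A.inj i := fun σ i j => hc σ (i, j)
  refine ⟨c, ?_, ?_⟩
  · intro σ i j h
    refine gl_inj (B.vb j) (etaU σ) (φ := cell c σ i j) (ψ := 0) ?_
    refine (hc' σ i j).trans (Eq.trans ?_ (gl_zero _).symm)
    rcases σ.eq_empty_or_nonempty with rfl | hσ
    · rw [hF, LinearMap.zero_comp, LinearMap.comp_zero]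
    · rcases h with rfl | h
      · exact absurd rfl hσ.ne_empty
      · ext v
        exact (isDeg_iff _ _).mp (hF' σ hσ).2 i j v (by omega)
  · funext σ
    exact T_eq_iff _ _ _ fun i j v => by rw [hc']; rfl

theorem T_add {A B : VBC X.Z} (c c' : Coch A B) (σ : Finset X.I) : T (c + c') σ = T c σ + T c' σ := by
  refine T_eq_iff _ _ _ fun i j v => ?_
  rw [LinearMap.add_apply, map_add, T_mat, T_mat]
  have h := gl_add (etaU σ) (cell c σ i j) (cell c' σ i j)
  exact (congrArg (fun f => f v) h).symm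

theorem T_smul {A B : VBC X.Z} (a : k) (c : Coch A B) (σ : Finset X.I) : T (a • c) σ = a • T c σ := by
  refine T_eq_iff _ _ _ fun i j v => ?_
  have h := gl_smul (etaU σ) a (cell c σ i j) v
  refine Eq.trans ?_ h.symm
  refine Eq.trans (map_smul (B.prj j) (algebraMap k X.K a) (T c σ (A.inj i v))) ?_
  rw [T_mat]
  rfl

theorem T_one (A : VBC X.Z) (σ : Finset X.I) : T (oneC A) σ = RZ.cone1 A.G.V σ := by
  refine T_eq_iff _ _ _ fun i j v => ?_
  unfold RZ.cone1
  by_cases h1 : σ.card = 1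
  · rw [if_pos h1, LinearMap.id_apply]
    by_cases h2 : i = j
    · subst h2
      have h3 : cell (oneC A) σ i i = of (eqm A rfl) (Us X σ) := dif_pos ⟨h1, rfl⟩
      have h4 : eqm A (rfl : i = i) = 𝟙 (A.C.X i) := rfl
      have h5 : gc (oneC A) σ i i = X.sm (eqm A (rfl : i = i)) :=
        (congrArg (gl (etaU σ)) h3).trans (gl_of (etaU σ) (eqm A rfl))
      rw [h5, h4, A.prj_inj]
      exact (X.sm_id _ v).symm
    · have h3 : cell (oneC A) σ i j = 0 := dif_neg fun h => h2 h.2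
      rw [gc_zero h3, A.prj_inj_ne i j h2]
      rfl
  · rw [if_neg h1]
    have h3 : cell (oneC A) σ i j = 0 := dif_neg fun h => h1 h.1
    rw [gc_zero h3, LinearMap.zero_apply, map_zero]
    rfl

theorem T_app {A B : VBC X.Z} {n : ℤ} {c : Coch A B} (hc : IsCoch n c) (σ : Finset X.I) (i m : ℤ)
    (hm : i + n + 1 = m + σ.card) (v : X.st (A.C.X i)) :
    T c σ (A.inj i v) = B.inj m (gc c σ i m v) := by
  refine ext_prj B fun j => ?_
  rw [T_mat]
  by_cases h : m = j
  · subst h; rw [B.prj_inj]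
  · rw [B.prj_inj_ne m j h, gc_zero (hc σ i j (Or.inr (by omega)))]
    rfl

theorem T_cup {A B C : VBC X.Z} {m : ℤ} {c : Coch B C} {c' : Coch A B}
    (hc' : IsCoch m c') (σ : Finset X.I) : T (cup m c c') σ = RZ.ccup (T c) (T c') σ := by
  refine T_eq_iff _ _ _ fun i j v => ?_
  unfold RZ.ccup
  rw [LinearMap.sum_apply, map_sum]
  have h1 : cell (cup m c c') σ i j = sum σ fun l => cut c c' σ i (i + m + 1 - (hi σ l).card) j l := rfl
  unfold gc
  rw [h1]
  refine Eq.trans ?_ (congrArg (fun f => f v) (gl_sum (etaU σ) σ _)).symm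
  rw [LinearMap.sum_apply]
  refine Finset.sum_congr rfl fun l hl => ?_
  rw [LinearMap.comp_apply]
  have h2 := T_app hc' (hi σ l) i (i + m + 1 - (hi σ l).card) (by omega) v
  have h3 : (RZ.hi σ l) = hi σ l := rfl
  have h4 : (RZ.lo σ l) = lo σ l := rfl
  rw [h3, h4, h2, T_mat]
  refine Eq.trans ?_ (gl_comp (etaU σ) (res (Us_lo σ l) (cell c (lo σ l) (i + m + 1 - (hi σ l).card) j))
    (res (Us_hi σ l) (cell c' (hi σ l) i (i + m + 1 - (hi σ l).card))) v).symm
  have h5 := gl_res (etaU (lo σ l)) (etaU σ) (Us_lo σ l) (cell c (lo σ l) (i + m + 1 - (hi σ l).card) j)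
  have h6 := gl_res (etaU (hi σ l)) (etaU σ) (Us_hi σ l) (cell c' (hi σ l) i (i + m + 1 - (hi σ l).card))
  exact congrArg₂ (fun f g => f (g v)) h5.symm h6.symm

theorem prj_P (B : VBC X.Z) (j : ℤ) (x : B.G.V) : B.prj j (B.G.P x) = j.negOnePow • B.prj j x := by
  unfold RZ.GrD.P
  rw [LinearMap.sum_apply, map_sum]
  rcases mem_or B j with hj | hj
  · have hj' : j ∈ Finset.Icc (-(B.G.bd : ℤ)) B.G.bd := hj
    rw [Finset.sum_eq_single_of_mem j hj']
    · rw [LinearMap.smul_apply, map_zsmul, VBC.G_pr, B.prj_inj]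
      rfl
    · intro b _ hb
      rw [LinearMap.smul_apply, map_zsmul, VBC.G_pr, B.prj_inj_ne b j hb, smul_zero]
  · have := X.st_subsingleton (B.bounded j hj)
    exact Subsingleton.elim _ _

theorem prj_d (B : VBC X.Z) (j : ℤ) (x : B.G.V) :
    B.prj j (B.G.d x) = X.sm (B.C.d (j - 1) j) (B.prj (j - 1) x) := by
  have key : ∀ (l : ℤ) (v : X.st (B.C.X l)), B.prj j (B.G.d (B.inj l v)) =
      X.sm (B.C.d (j - 1) j) (B.prj (j - 1) (B.inj l v)) := by
    intro l v
    rw [B.G_d]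
    by_cases h : l = j - 1
    · subst h
      rw [B.prj_inj]
      obtain ⟨m, hm⟩ : ∃ m, m = j - 1 := ⟨_, rfl⟩
      have h2 : ∀ (m : ℤ) (hm : m + 1 = j) (v : X.st (B.C.X m)),
          B.prj j (B.inj (m + 1) (X.sm (B.C.d m (m + 1)) v)) = X.sm (B.C.d m j) v := by
        intro m hm v
        subst hm
        rw [B.prj_inj]
      exact h2 (j - 1) (by omega) v
    · rw [B.prj_inj_ne (l + 1) j (by omega), B.prj_inj_ne l (j - 1) h, map_zero]
  rw [B.sum_inj_prj x, map_sum, map_sum, map_sum, map_sum]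
  exact Finset.sum_congr rfl fun l _ => key l _

theorem T_d {A B : VBC X.Z} (n : ℤ) (c : Coch A B) (σ : Finset X.I) :
    T (dC n c) σ = RZ.rawD A.G B.G n (T c) σ := by
  refine T_eq_iff _ _ _ fun i j v => ?_
  have e1 : gc (dC n c) σ i j = j.negOnePow • (∑ l ∈ σ, (pos σ l).negOnePow • gc c (er σ l) i j) +
      X.sm (B.C.d (j - 1) j) ∘ₗ gc c σ i (j - 1) +
      (n + 1).negOnePow • (gc c σ (i + 1) j ∘ₗ X.sm (A.C.d i (i + 1))) := by
    have f1 : cell (dC n c) σ i j = add (M := Cell A B σ (i, j)) (add (M := Cell A B σ (i, j))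
        (sgn j (cell (del c) σ i j)) (comp (of (df B (j - 1) j) (Us X σ)) (cell c σ i (j - 1))))
        (sgn (n + 1) (comp (cell c σ (i + 1) j) (of (df A i (i + 1)) (Us X σ)))) := rfl
    have f2 : gl (etaU σ) (cell (del c) σ i j) = ∑ l ∈ σ, (pos σ l).negOnePow • gc c (er σ l) i j := by
      refine (gl_sum (etaU σ) σ fun l => sgn (pos σ l) (res (Us_er σ l) (cell c (er σ l) i j))).trans ?_
      refine Finset.sum_congr rfl fun l _ => ?_
      refine (gl_sgn (etaU σ) _ _).trans ?_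
      exact congrArg (fun f => (pos σ l).negOnePow • f)
        (gl_res (etaU (er σ l)) (etaU σ) (Us_er σ l) (cell c (er σ l) i j))
    have f3 : gl (etaU σ) (comp (of (df B (j - 1) j) (Us X σ)) (cell c σ i (j - 1))) =
        X.sm (B.C.d (j - 1) j) ∘ₗ gc c σ i (j - 1) := by
      ext v
      refine (gl_comp (etaU σ) _ _ v).trans ?_
      exact congrArg (fun f => f (gc c σ i (j - 1) v)) (gl_of (etaU σ) (df B (j - 1) j))
    have f4 : gl (etaU σ) (comp (cell c σ (i + 1) j) (of (df A i (i + 1)) (Us X σ))) =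
        gc c σ (i + 1) j ∘ₗ X.sm (A.C.d i (i + 1)) := by
      ext v
      refine (gl_comp (etaU σ) _ _ v).trans ?_
      exact congrArg (fun f => gc c σ (i + 1) j (f v)) (gl_of (etaU σ) (df A i (i + 1)))
    unfold gc at f2 f3 f4 ⊢
    rw [f1]
    refine (gl_add (etaU σ) _ _).trans ?_
    refine congrArg₂ (fun f g => f + g) ((gl_add (etaU σ) _ _).trans ?_) ?_
    · refine congrArg₂ (fun f g => f + g) ((gl_sgn (etaU σ) j _).trans ?_) f3
      exact congrArg (fun f => j.negOnePow • f) f2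
    · exact (gl_sgn (etaU σ) (n + 1) _).trans (congrArg (fun f => (n + 1).negOnePow • f) f4)
  rw [e1]
  unfold RZ.rawD
  simp only [LinearMap.sub_apply, LinearMap.add_apply, LinearMap.comp_apply, LinearMap.smul_apply, map_sub,
    map_add, map_zsmul]
  rw [prj_P, prj_d, T_mat, A.G_d, T_mat]
  have e2 : B.prj j (RZ.cdel (T c) σ (A.inj i v)) = ∑ l ∈ σ, (pos σ l).negOnePow • gc c (er σ l) i j v := by
    unfold RZ.cdel
    rw [LinearMap.sum_apply, map_sum]
    refine Finset.sum_congr rfl fun l _ => ?_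
    rw [LinearMap.smul_apply, map_zsmul, T_mat]
    have e3 : RZ.sg σ l = ((pos σ l).negOnePow : ℤˣ) := by
      unfold RZ.sg pos
      rw [Int.negOnePow_def]
      simp
    rw [e3]
    rfl
  rw [e2, LinearMap.sum_apply]
  have e4 : ((n + 1).negOnePow • (gc c σ (i + 1) j) (X.sm (A.C.d i (i + 1)) v)) =
      - (((n.negOnePow : ℤˣ) : ℤ) • (gc c σ (i + 1) j) (X.sm (A.C.d i (i + 1)) v)) := by
    rw [Int.negOnePow_succ, Units.neg_smul]
    rfl
  rw [e4]
  rw [sub_eq_add_neg]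
  rfl

end

end Pool.Agent.Helper17.RZF.Pf
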