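import Pool.Agent.Helper17.RZF.CechP4

/-!
# MP_77656e_ag: the axioms of the Cech DG category (proofs)
-/

set_option autoImplicit false

open AlgebraicGeometry CategoryTheory TopologicalSpace Opposite

namespace Pool.Agent.Helper17.RZF.Pf

open Pool.Agent.Helper17.RZ.Sch

universe u

noncomputable section

variable {k : Type u} [Field k] {X : CSch.{u} k}

/-- the spaces of cochains of the other version -/
def HH (A B : VBC X.Z) (n : ℤ) : Type u := X.cech.Hom A B n

instance (A B : VBC X.Z) (n : ℤ) : AddCommGroup (HH A B n) := X.cech.acg A B n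

instance (A B : VBC X.Z) (n : ℤ) : Module k (HH A B n) := X.cech.mod A B n

/-- the operations -/
def cH {A B C : VBC X.Z} {n m l : ℤ} (h : n + m = l) : HH B C n →ₗ[k] HH A B m →ₗ[k] HH A C l :=
  X.cech.comp h

def dH {A B : VBC X.Z} {n m : ℤ} (h : n + 1 = m) : HH A B n →ₗ[k] HH A B m := X.cech.d h

def oH (A : VBC X.Z) : HH A A 0 := X.cech.one A

/-- the comparison of the two versions of Cech cochains -/
def TT {A B : VBC X.Z} {n : ℤ} (c : CochHom A B n) : HH A B n := ⟨T (subM.val c), T_mem (subM.prop c)⟩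

theorem TT_inj {A B : VBC X.Z} {n : ℤ} {c c' : CochHom A B n} (h : TT c = TT c') : c = c' :=
  Subtype.ext (T_inj fun σ => congrFun (congrArg Subtype.val h) σ)

theorem TT_surj {A B : VBC X.Z} {n : ℤ} (f : HH A B n) : ∃ c : CochHom A B n, TT c = f := by
  obtain ⟨c, hc, h⟩ := T_surj f.1 f.2.1 f.2.2
  exact ⟨subM.mk c hc, Subtype.ext h⟩

theorem TT_lin (A B : VBC X.Z) (n : ℤ) : IsLinearMap k (TT : CochHom A B n → HH A B n) where
  map_add c c' := Subtype.ext (funext fun σ => T_add c.1 c'.1 σ)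
  map_smul a c := Subtype.ext (funext fun σ => T_smul a c.1 σ)

/-- the comparison as a linear map -/
def TTl (A B : VBC X.Z) (n : ℤ) : CochHom A B n →ₗ[k] HH A B n := (TT_lin A B n).mk' _

theorem TT_one (A : VBC X.Z) : TT (oneK A) = oH A := Subtype.ext (funext fun σ => T_one A σ)

theorem TT_comp {A B C : VBC X.Z} {n m l : ℤ} (h : n + m = l) (c : CochHom B C n) (c' : CochHom A B m) :
    TT (compK h c c') = cH h (TT c) (TT c') :=
  Subtype.ext (funext fun σ => T_cup (subM.prop c') σ)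

theorem TT_d {A B : VBC X.Z} {n m : ℤ} (h : n + 1 = m) (c : CochHom A B n) :
    TT (dK h c) = dH h (TT c) := Subtype.ext (funext fun σ => T_d n _ σ)

theorem TT_add {A B : VBC X.Z} {n : ℤ} (c c' : CochHom A B n) : TT (c + c') = TT c + TT c' :=
  (TT_lin A B n).map_add c c'

theorem TT_smul {A B : VBC X.Z} {n : ℤ} (a : k) (c : CochHom A B n) : TT (a • c) = a • TT c :=
  (TT_lin A B n).map_smul a c

theorem TT_sgn {A B : VBC X.Z} {n : ℤ} (m : ℤ) (c : CochHom A B n) : TT (sgn m c) = m.negOnePow • TT c := by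
  unfold sgn
  rcases Int.units_eq_one_or m.negOnePow with h1 | h1
  · rw [h1, one_smul, one_smul]
  · have h2 : TT (-c) = - TT c := ((TT_lin A B n).mk' _).map_neg c
    rw [h1]
    simp only [Units.neg_smul, one_smul]
    exact h2

theorem isDG_cech (X : CSch.{u} k) : IsDG (Obj := VBC X.Z) CochHom oneK (@compK k _ X) (@dK k _ X) where
  lin_left h g := ⟨fun f f' => TT_inj (by
      rw [TT_add, TT_comp, TT_comp, TT_comp, TT_add, map_add]; rfl),
    fun a f => TT_inj (by
      rw [TT_smul, TT_comp, TT_comp, TT_smul, map_smul]; rfl)⟩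
  lin_right h f := ⟨fun g g' => TT_inj (by
      rw [TT_add, TT_comp, TT_comp, TT_comp, TT_add, map_add]),
    fun a g => TT_inj (by
      rw [TT_smul, TT_comp, TT_comp, TT_smul, map_smul])⟩
  lin_d h := ⟨fun f f' => TT_inj (by
      rw [TT_add, TT_d, TT_d, TT_d, TT_add, map_add]),
    fun a f => TT_inj (by
      rw [TT_smul, TT_d, TT_d, TT_smul, map_smul])⟩
  one_comp h f := TT_inj (by rw [TT_comp, TT_one]; exact X.cech.one_comp h (TT f))
  comp_one h f := TT_inj (by rw [TT_comp, TT_one]; exact X.cech.comp_one h (TT f))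
  assoc h₁ h₂ h₃ h₄ f g h := TT_inj (by
    rw [TT_comp, TT_comp, TT_comp, TT_comp]; exact X.cech.assoc h₁ h₂ h₃ h₄ (TT f) (TT g) (TT h))
  d_d h₁ h₂ f := TT_inj (by
    rw [TT_d, TT_d]
    exact (X.cech.d_d h₁ h₂ (TT f)).trans ((TT_lin _ _ _).mk' _).map_zero.symm)
  d_comp h hl hn hm h₁ h₂ f g := TT_inj (by
    refine Eq.trans ?_ (TT_add _ _).symm
    rw [TT_sgn, TT_d, TT_comp, TT_comp, TT_comp, TT_d, TT_d]
    exact X.cech.d_comp h hl hn hm h₁ h₂ (TT f) (TT g))

end

end Pool.Agent.Helper17.RZF.Pf
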