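import Pool.Agent.Helper17.RZF.TrSt
import Pool.Agent.Helper64.RZL.Thick
import Pool.Agent.Helper17.RZ.Sch.Compare

/-!
# MP_77656e_ag: transfer of the DG category of modules and of perfect modules
-/

set_option autoImplicit false

namespace Pool.Agent.Helper17.RZF.Tr

open Pool.Agent.Helper17

universe u v w

noncomputable section

variable {k : Type u} [Field k] {V : RZF.DGCat.{u, v, w} k}

/-- modules: from the light to the heavy layer -/
def toH (M : RZF.DGMod V) : Helper49.RZ.DGMod (hv V) where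
  M X :=
    { X := fun n => M.M X n
      d := fun h => (M.ax.lin_d h).mk' _
      d_d := fun h₁ h₂ x => M.ax.d_d h₁ h₂ x }
  act h := LinearMap.mk₂ k (fun x f => M.act h x f)
    (fun x x' f => (M.ax.lin_left h f).map_add x x') (fun c x f => (M.ax.lin_left h f).map_smul c x)
    (fun x f f' => (M.ax.lin_right h x).map_add f f') (fun c x f => (M.ax.lin_right h x).map_smul c f)
  act_one h x := M.ax.act_one h x
  act_act h₁ h₂ h₃ h₄ x f g := M.ax.act_act h₁ h₂ h₃ h₄ x f g
  d_act h hl hn hm h₁ h₂ x f := M.ax.d_act h hl hn hm h₁ h₂ x f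

/-- modules: from the heavy to the light layer -/
def toL (M : Helper49.RZ.DGMod (hv V)) : RZF.DGMod V where
  M X n := ModuleCat.of k ((M.M X).X n)
  d {X _ _} h x := (M.M X).d h x
  act h x f := M.act h x f
  ax :=
    { lin_d := fun {X _ _} h => ((M.M X).d h).isLinear
      lin_left := fun {X Y _ m _} h f =>
        let X' : (hv V).Obj := X
        let Y' : (hv V).Obj := Y
        let f' : (hv V).Hom X' Y' m := f
        ((M.act (X := X') (Y := Y') h).flip f').isLinear
      lin_right := fun {X Y _ _ _} h x =>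
        let X' : (hv V).Obj := X
        let Y' : (hv V).Obj := Y
        (M.act (X := X') (Y := Y') h x).isLinear
      d_d := fun {X _ _ _} h₁ h₂ x => (M.M X).d_d h₁ h₂ x
      act_one := fun h x => M.act_one h x
      act_act := fun h₁ h₂ h₃ h₄ x f g => M.act_act h₁ h₂ h₃ h₄ x f g
      d_act := fun h hl hn hm h₁ h₂ x f => M.d_act h hl hn hm h₁ h₂ x f }

theorem toL_toH (M : RZF.DGMod V) : toL (toH M) = M := rfl

theorem toH_toL (M : Helper49.RZ.DGMod (hv V)) : toH (toL M) = M := rfl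

theorem toH_rep (X : V.Obj) : toH (RZF.rep X) = Helper49.RZ.rep (V := hv V) X := rfl

/-- morphisms of modules: from the light to the heavy layer -/
def hm {A B : RZF.DGMod V} {n : ℤ} (φ : RZF.ModHom A B n) : Helper49.RZ.ModHom (toH A) (toH B) n :=
  ⟨fun _ p => ((subM.prop φ).lin p.2).mk' _, fun h₁ h₂ h₃ h₄ x f => (subM.prop φ).nat h₁ h₂ h₃ h₄ x f⟩

/-- morphisms of modules: from the heavy to the light layer -/
def hl {A B : RZF.DGMod V} {n : ℤ} (φ : Helper49.RZ.ModHom (toH A) (toH B) n) : RZF.ModHom A B n :=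
  subM.mk (M := RZF.Raw A B n) (fun X p x => φ.1 X p x) ⟨fun {X i j} h => (φ.1 X ⟨(i, j), h⟩).isLinear,
    fun h₁ h₂ h₃ h₄ x f => φ.2 h₁ h₂ h₃ h₄ x f⟩

theorem hl_hm {A B : RZF.DGMod V} {n : ℤ} (φ : RZF.ModHom A B n) : hl (hm φ) = φ := rfl

theorem hm_hl {A B : RZF.DGMod V} {n : ℤ} (φ : Helper49.RZ.ModHom (toH A) (toH B) n) : hm (hl φ) = φ := rfl

theorem hm_one (A : RZF.DGMod V) : hm (RZF.oneHom A) = Helper49.RZ.oneHom (toH A) :=
  Helper49.RZ.ap_ext fun X i j h x => by
    obtain rfl : i = j := by omega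
    rfl

theorem hm_comp {A B C : RZF.DGMod V} {n m l : ℤ} (h : n + m = l) (f : RZF.ModHom B C n)
    (g : RZF.ModHom A B m) : hm (RZF.compHom h f g) = Helper49.RZ.compHom h (hm f) (hm g) := rfl

theorem hm_d {A B : RZF.DGMod V} {n m : ℤ} (h : n + 1 = m) (f : RZF.ModHom A B n) :
    hm (RZF.dHom h f) = Helper49.RZ.dHom h (hm f) :=
  Helper49.RZ.ap_ext fun X i j hij x => by
    subst h
    have e1 := Helper49.RZ.d_ap (rfl : n + 1 = n + 1) (hm f) hij (show n + i + 1 = j by omega) rfl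
      (show n + (i + 1) = j by omega) rfl x
    refine Eq.trans ?_ e1.symm
    have e2 : (n + 1).negOnePow = - n.negOnePow := Int.negOnePow_succ n
    change B.d _ (RZF.ap (subM.val f) _ x) + (n + 1).negOnePow • RZF.ap (subM.val f) _ (A.d _ x) =
      B.d _ (RZF.ap (subM.val f) _ x) - n.negOnePow • RZF.ap (subM.val f) _ (A.d _ x)
    rw [e2, Units.neg_smul, sub_eq_add_neg]

/-- the comparison as a linear map -/
def hmL (A B : (hv (RZF.modCat V)).Obj) (n : ℤ) : (hv (RZF.modCat V)).Hom A B n →ₗ[k]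
    (Helper49.RZ.ModHom (toH A) (toH B) n) where
  toFun := hm
  map_add' _ _ := rfl
  map_smul' _ _ := rfl

/-- the inverse comparison as a linear map -/
def hlL (A B : Helper49.RZ.DGMod (hv V)) (n : ℤ) : Helper49.RZ.ModHom A B n →ₗ[k]
    RZF.ModHom (toL A) (toL B) n where
  toFun φ := hl (A := toL A) (B := toL B) φ
  map_add' _ _ := rfl
  map_smul' _ _ := rfl

variable (V)

/-- the functor from the light to the heavy DG category of modules -/
def modF : Helper49.RZ.DGFun (hv (RZF.modCat V)) (Helper49.RZ.ModCat (hv V)) where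
  obj A := toH (V := V) A
  map {A B n} := hmL A B n
  map_one A := hm_one (V := V) A
  map_comp h f g := hm_comp (V := V) h f g
  map_d h f := hm_d (V := V) h f

/-- the inverse functor -/
def modG : Helper49.RZ.DGFun (Helper49.RZ.ModCat (hv V)) (hv (RZF.modCat V)) where
  obj := toL
  map {A B n} := hlL A B n
  map_one A := congrArg hl (hm_one (toL A)).symm
  map_comp _ _ _ := rfl
  map_d {A B _ _} h f := congrArg hl (hm_d h (hl (A := toL A) (B := toL B) f)).symm

theorem isShift_iff (C : RZF.DGCat.{u, v, w} k) (X Y : C.Obj) (n : ℤ) :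
    RZF.IsShift C X Y n ↔ Helper49.RZ.IsShift (hv C) X Y n := Iff.rfl

theorem isCone_iff (C : RZF.DGCat.{u, v, w} k) (X Y : C.Obj) (f : C.Hom X Y 0) (Z : C.Obj) :
    RZF.IsCone C f Z ↔ Helper49.RZ.IsCone (hv C) (X := X) (Y := Y) f Z := by
  constructor
  · rintro ⟨i, p, j, q, h1, h2, h3, h4, h5, h6, h7, h8, h9⟩
    refine ⟨i, p, j, q, h1, h2, h3, h4, h5, h6, h7, h8, ?_⟩
    have h9' : C.d (zero_add 1) p + C.comp (zero_add 1) f q = 0 := h9
    have h10 : C.d (zero_add 1) p = - C.comp (zero_add 1) f q := eq_neg_of_add_eq_zero_left h9'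
    exact h10
  · rintro ⟨i, p, j, q, h1, h2, h3, h4, h5, h6, h7, h8, h9⟩
    refine ⟨i, p, j, q, h1, h2, h3, h4, h5, h6, h7, h8, ?_⟩
    have h9' : C.d (zero_add 1) p = - C.comp (zero_add 1) f q := h9
    exact eq_neg_iff_add_eq_zero.mp h9'

theorem isRetract_iff (C : RZF.DGCat.{u, v, w} k) (X Y : C.Obj) :
    RZF.IsRetract C X Y ↔ (hv C).Retract X Y :=
  ⟨fun ⟨i, p, h1, h2, s, h3⟩ => ⟨i, p, s, h1, h2, h3⟩, fun ⟨i, p, s, h1, h2, h3⟩ => ⟨i, p, h1, h2, s, h3⟩⟩

theorem thick_mp (C : RZF.DGCat.{u, v, w} k) (S : C.Obj → Prop) (X : C.Obj) (h : RZF.Thick C S X) :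
    Helper49.RZ.DGThick (hv C) S X := by
  induction h with
  | base X h => exact Helper49.RZ.DGThick.base (C := hv C) X h
  | shift X Y n _ h ih => exact Helper49.RZ.DGThick.shift (C := hv C) X Y n ih ((isShift_iff C X Y n).mp h)
  | cone X Y Z f _ _ hf h ih ih' =>
    exact Helper49.RZ.DGThick.cone (C := hv C) X Y Z f ih ih' hf ((isCone_iff C X Y f Z).mp h)
  | retract X Y _ h ih => exact Helper49.RZ.DGThick.retract (C := hv C) X Y ih ((isRetract_iff C Y X).mp h)

theorem thick_mpr (C : RZF.DGCat.{u, v, w} k) (S : (hv C).Obj → Prop) (X : (hv C).Obj)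
    (h : Helper49.RZ.DGThick (hv C) S X) : RZF.Thick C S X := by
  induction h with
  | base X h => exact RZF.Thick.base (C := C) X h
  | shift X Y n _ h ih => exact RZF.Thick.shift (C := C) X Y n ih ((isShift_iff C X Y n).mpr h)
  | cone X Y Z f _ _ hf h ih ih' =>
    exact RZF.Thick.cone (C := C) X Y Z f ih ih' hf ((isCone_iff C X Y f Z).mpr h)
  | retract X Y _ h ih => exact RZF.Thick.retract (C := C) X Y ih ((isRetract_iff C Y X).mpr h)

theorem perf_toH (M : (RZF.modCat V).Obj) (h : RZF.Thick (RZF.modCat V) (fun P => ∃ X : V.Obj, P = RZF.rep X) M) :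
    Helper49.RZ.DGThick (Helper49.RZ.ModCat (hv V)) Helper49.RZ.IsRep (toH (V := V) M) := by
  refine Helper64.RZL.thickMap (modF V) (fun P => ∃ X : V.Obj, P = RZF.rep X) Helper49.RZ.IsRep ?_ M
    (thick_mp _ _ _ h)
  rintro M ⟨X, rfl⟩
  exact .base _ ⟨X, rfl⟩

theorem perf_toL (M : (Helper49.RZ.ModCat (hv V)).Obj)
    (h : Helper49.RZ.DGThick (Helper49.RZ.ModCat (hv V)) Helper49.RZ.IsRep M) :
    RZF.Thick (RZF.modCat V) (fun P => ∃ X : V.Obj, P = RZF.rep X) (toL (V := V) M) := by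
  refine thick_mpr _ _ _ ?_
  refine Helper64.RZL.thickMap (modG V) Helper49.RZ.IsRep (fun P => ∃ X : V.Obj, P = RZF.rep X) ?_ M h
  rintro M ⟨X, rfl⟩
  exact .base _ ⟨X, rfl⟩

/-- the functor on perfect modules -/
def perfF : Helper49.RZ.DGFun (hv (RZF.Perf V)) (Helper49.RZ.Perf (hv V)) where
  obj M := ⟨toH (V := V) M.1, perf_toH V M.1 M.2⟩
  map {A B n} := hmL A.1 B.1 n
  map_one A := hm_one (V := V) A.1
  map_comp h f g := hm_comp (V := V) h f g
  map_d h f := hm_d (V := V) h f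

theorem d_one' (C : RZ.DGCat.{u, v, w} k) (X : C.Obj) (h : (0 : ℤ) + 1 = 1) : C.d h (C.one X) = 0 := by
  have h1 := C.d_comp (zero_add 0) h h h (add_zero 1) (zero_add 1) (C.one X) (C.one X)
  rw [C.one_comp, C.comp_one, C.one_comp, Int.negOnePow_zero, one_smul] at h1
  have h2 : C.d h (C.one X) + 0 = C.d h (C.one X) + C.d h (C.one X) := by rw [add_zero]; exact h1
  exact (add_left_cancel h2).symm

theorem hEquiv_refl (C : RZ.DGCat.{u, v, w} k) (X : C.Obj) : Helper49.RZ.HEquiv C X X :=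
  ⟨C.one X, C.one X, 0, 0, d_one' C X _, d_one' C X _, by rw [C.one_comp, map_zero, add_zero],
    by rw [C.one_comp, map_zero, add_zero]⟩

theorem perfF_qe : (perfF V).IsQuasiEquiv where
  qff A B := by
    constructor
    · intro l n m h₁ h₂ x y hx hy
      have h3 := (perfF V).map_d h₁ (hl (A := A.1) (B := B.1) y)
      refine ⟨hl (A := A.1) (B := B.1) y, ?_⟩
      have h4 : hm (V := V) x = hm (V := V) ((RZF.modCat V).d h₁ (hl (A := A.1) (B := B.1) y)) :=
        hy.trans h3.symm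
      exact congrArg (hl (V := V)) h4
    · intro l n m h₁ h₂ y hy
      refine ⟨hl (A := A.1) (B := B.1) y, 0, ?_, ?_⟩
      · have h3 := (perfF V).map_d h₂ (hl (A := A.1) (B := B.1) y)
        have h4 : hm (V := V) ((RZF.modCat V).d h₂ (hl (A := A.1) (B := B.1) y)) = hm (V := V) 0 :=
          h3.trans hy
        exact congrArg (hl (V := V)) h4
      · rw [map_zero, add_zero]; rfl
  surj Y := ⟨⟨toL Y.1, perf_toL V Y.1 Y.2⟩, hEquiv_refl _ _⟩

end

theorem trPerf : TrPerf.{u, v, w} := fun _ _ V => ⟨perfF V, perfF_qe V⟩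

end Pool.Agent.Helper17.RZF.Tr
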