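import Pool.Agent.Helper17.RZF.TrSt

/-!
# MP_77656e_ag: transfer of quasi-equivalences
-/

set_option autoImplicit false

namespace Pool.Agent.Helper17.RZF.Tr

open Pool.Agent.Helper17

universe u v w

variable {k : Type u} [Field k]

/-- DG functors from the heavy to the light layer -/
def ltF {A B : RZ.DGCat.{u, v, w} k} (F : Helper49.RZ.DGFun A B) : RZF.Functor (lt A) (lt B) where
  obj := F.obj
  map f := F.map f
  lin _ _ _ := F.map.isLinear
  map_one := F.map_one
  map_comp h f g := F.map_comp h f g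
  map_d h f := F.map_d h f

theorem ltF_qe {A B : RZ.DGCat.{u, v, w} k} (F : Helper49.RZ.DGFun A B) (hF : F.IsQuasiEquiv) :
    (ltF F).IsQuasiEquiv where
  inj {X Y l n} h x y hx hxy := (hF.qff X Y).inj h rfl x y hx hxy
  surj {X Y l n} h y hy := by
    obtain ⟨x, z, h1, h2⟩ := (hF.qff X Y).surj h rfl y hy
    exact ⟨x, z, h1, h2⟩
  ess Y := by
    obtain ⟨X, f, g, s, t, h1, h2, h3, h4⟩ := hF.surj Y
    exact ⟨X, f, g, h1, h2, ⟨s, h3⟩, ⟨t, h4⟩⟩

theorem trQE : TrQE.{u, v, w} := by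
  intro k _ A B h
  induction h with
  | refl A => exact .refl _
  | left F hF _ ih => exact .trans _ _ _ (.symm _ _ (.rel _ _ ⟨ltF F, ltF_qe F hF⟩)) ih
  | right F hF _ ih => exact .trans _ _ _ (.rel _ _ ⟨ltF F, ltF_qe F hF⟩) ih

end Pool.Agent.Helper17.RZF.Tr
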