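import Pool.Agent.Helper17.RZF.Asm
import Pool.Agent.Helper17.RZF.TrQ
import Pool.Agent.Helper17.RZF.TrM

/-!
# MP_77656e_ag: the main theorem in the light layer
-/

set_option autoImplicit false

namespace Pool.Agent.Helper17.RZF.Tr

universe u

theorem main4T : Main4.{u} := main4 trQE trPerf

end Pool.Agent.Helper17.RZF.Tr
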