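import Pool.Agent.Helper17.RZF.Cat

/-!
# MP_77656e_ag: right DG modules over a DG category, families of maps

Definitions used in the statement of the final theorem.
-/

set_option autoImplicit false

namespace Pool.Agent.Helper17.RZF

universe u v w

variable {k : Type u} [Field k]

/-- The axioms of a right DG module over the DG category `V`, given by complexes `M X` for the objects
`X`, and the action `M Y × Hom X Y → M X`. -/
structure IsMod (V : DGCat.{u, v, w} k) (M : V.Obj → ℤ → ModuleCat.{max v w} k)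
    (d : ∀ {X : V.Obj} {n m : ℤ}, n + 1 = m → M X n → M X m)
    (act : ∀ {X Y : V.Obj} {n m l : ℤ}, n + m = l → M Y n → V.Hom X Y m → M X l) : Prop where
  lin_d : ∀ {X : V.Obj} {n m : ℤ} (h : n + 1 = m), Lin (fun x : M X n => d h x)
  lin_left : ∀ {X Y : V.Obj} {n m l : ℤ} (h : n + m = l) (f : V.Hom X Y m),
    Lin (fun x : M Y n => act h x f)
  lin_right : ∀ {X Y : V.Obj} {n m l : ℤ} (h : n + m = l) (x : M Y n),
    Lin (fun f : V.Hom X Y m => act h x f)
  d_d : ∀ {X : V.Obj} {n m l : ℤ} (h₁ : n + 1 = m) (h₂ : m + 1 = l) (x : M X n),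
    d h₂ (d h₁ x) = zro (M X l)
  act_one : ∀ {X : V.Obj} {n : ℤ} (h : n + 0 = n) (x : M X n), act h x (V.one X) = x
  act_act : ∀ {X Y Z : V.Obj} {a b c ab bc l : ℤ} (h₁ : a + b = ab) (h₂ : ab + c = l) (h₃ : b + c = bc)
    (h₄ : a + bc = l) (x : M Z a) (f : V.Hom Y Z b) (g : V.Hom X Y c),
    act h₂ (act h₁ x f) g = act h₄ x (V.comp h₃ f g)
  d_act : ∀ {X Y : V.Obj} {n m l n' m' l' : ℤ} (h : n + m = l) (hl : l + 1 = l') (hn : n + 1 = n')
    (hm : m + 1 = m') (h₁ : n' + m = l') (h₂ : n + m' = l') (x : M Y n) (f : V.Hom X Y m),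
    d hl (act h x f) = add (act h₁ (d hn x) f) (sgn n (act h₂ x (V.d hm f)))

/-- A right DG module over the DG category `V`. -/
structure DGMod (V : DGCat.{u, v, w} k) where
  M : V.Obj → ℤ → ModuleCat.{max v w} k
  d : ∀ {X : V.Obj} {n m : ℤ}, n + 1 = m → M X n → M X m
  act : ∀ {X Y : V.Obj} {n m l : ℤ}, n + m = l → M Y n → V.Hom X Y m → M X l
  ax : IsMod V M @d @act

/-- The pairs `(i, j)` of degrees with `n + i = j`. -/
abbrev Ix (n : ℤ) : Type := {p : ℤ × ℤ // n + p.1 = p.2}

variable {V : DGCat.{u, v, w} k}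

/-- The space of families of maps `A X i → B X j`, `n + i = j`. -/
def Raw (A B : DGMod V) (n : ℤ) : ModuleCat.{max v w} k :=
  prodM fun X : V.Obj => prodM fun p : Ix n => prodM fun _ : A.M X p.1.1 => B.M X p.1.2

/-- The member `A X i → B X j` of a family. -/
def ap {A B : DGMod V} {n : ℤ} (φ : Raw A B n) {X : V.Obj} {i j : ℤ} (h : n + i = j) (x : A.M X i) :
    B.M X j := (φ : ∀ (X : V.Obj) (p : Ix n), A.M X p.1.1 → B.M X p.1.2) X ⟨(i, j), h⟩ x

/-- The family consists of linear maps and is compatible with the action of `V`. -/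
structure IsHom {A B : DGMod V} {n : ℤ} (φ : Raw A B n) : Prop where
  lin : ∀ {X : V.Obj} {i j : ℤ} (h : n + i = j), Lin (ap φ h : A.M X i → B.M X j)
  nat : ∀ {X Y : V.Obj} {i m l i' l' : ℤ} (h₁ : i + m = l) (h₂ : n + l = l') (h₃ : n + i = i')
    (h₄ : i' + m = l') (x : A.M Y i) (f : V.Hom X Y m), ap φ h₂ (A.act h₁ x f) = B.act h₄ (ap φ h₃ x) f

/-- Transport along an equality of degrees. -/
def tr {A : ℤ → ModuleCat.{w} k} {i j : ℤ} (h : i = j) (x : A i) : A j := h ▸ x

theorem deg_one {i j : ℤ} (h : 0 + i = j) : i = j := by omega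
theorem deg_comp {n m l i j : ℤ} (h : n + m = l) (h' : l + i = j) : n + (m + i) = j := by omega
theorem deg_left {n m i j : ℤ} (h : n + 1 = m) (h' : m + i = j) : n + i + 1 = j := by omega
theorem deg_right {n m i j : ℤ} (h : n + 1 = m) (h' : m + i = j) : n + (i + 1) = j := by omega

/-- The identity, as a family of maps. -/
def oneRaw (A : DGMod V) : Raw A A 0 := fun X p => tr (A := A.M X) (deg_one p.2)

/-- The composition of families of maps. -/
def compRaw {A B C : DGMod V} {n m l : ℤ} (h : n + m = l) (φ : Raw B C n) (ψ : Raw A B m) : Raw A C l :=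
  fun _ p x => ap φ (deg_comp h p.2) (ap ψ rfl x)

/-- The differential `d φ - (-1)ⁿ φ d` of a family of maps of degree `n`. -/
def dRaw {A B : DGMod V} {n m : ℤ} (h : n + 1 = m) (φ : Raw A B n) : Raw A B m :=
  fun _ p x => add (B.d (deg_left h p.2) (ap φ rfl x)) (sgn (n + 1) (ap φ (deg_right h p.2) (A.d rfl x)))

end Pool.Agent.Helper17.RZF
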