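import Pool.Agent.Helper17.RZF.ModP1

/-!
# MP_77656e_ag: morphisms of right DG modules

Definitions used in the statement of the final theorem.
-/

set_option autoImplicit false

namespace Pool.Agent.Helper17.RZF

universe u v w

variable {k : Type u} [Field k] {V : DGCat.{u, v, w} k}

theorem isHom_sub (A B : DGMod V) (n : ℤ) : IsSub (M := Raw A B n) IsHom :=
  ⟨Pf.isHom_zero A B n, fun _ _ => Pf.isHom_add, fun c _ => Pf.isHom_smul c⟩

theorem isHom_one (A : DGMod V) : IsHom (oneRaw A) := Pf.isHom_one A

/-- The space of morphisms of degree `n` of right DG modules. -/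
def ModHom (A B : DGMod V) (n : ℤ) : ModuleCat.{max v w} k := subM (isHom_sub A B n)

theorem isHom_comp {A B C : DGMod V} {n m l : ℤ} (h : n + m = l) (φ : ModHom B C n) (ψ : ModHom A B m) :
    IsHom (compRaw h (subM.val φ) (subM.val ψ)) := Pf.isHom_comp h (subM.prop φ) (subM.prop ψ)

theorem isHom_d {A B : DGMod V} {n m : ℤ} (h : n + 1 = m) (φ : ModHom A B n) :
    IsHom (dRaw h (subM.val φ)) := Pf.isHom_d h (subM.prop φ)

/-- The identity of a right DG module. -/
def oneHom (A : DGMod V) : ModHom A A 0 := subM.mk (oneRaw A) (isHom_one A)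

/-- The composition of morphisms of right DG modules. -/
def compHom {A B C : DGMod V} {n m l : ℤ} (h : n + m = l) (φ : ModHom B C n) (ψ : ModHom A B m) :
    ModHom A C l := subM.mk (compRaw h (subM.val φ) (subM.val ψ)) (isHom_comp h φ ψ)

/-- The differential of morphisms of right DG modules. -/
def dHom {A B : DGMod V} {n m : ℤ} (h : n + 1 = m) (φ : ModHom A B n) : ModHom A B m :=
  subM.mk (dRaw h (subM.val φ)) (isHom_d h φ)

/-- The module of the representable functor `Hom(-, X)`. -/
def repM (X : V.Obj) (Y : V.Obj) (n : ℤ) : ModuleCat.{max v w} k := ModuleCat.of k (ULift.{v} (V.Hom Y X n))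

/-- The element of the representable module given by a morphism. -/
def up {X Y : V.Obj} {n : ℤ} (f : V.Hom Y X n) : repM X Y n := ⟨f⟩

/-- The morphism given by an element of the representable module. -/
def dn {X Y : V.Obj} {n : ℤ} (x : repM X Y n) : V.Hom Y X n := ULift.down x

end Pool.Agent.Helper17.RZF
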