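import Pool.Agent.Helper17.RZF.Mod1

/-!
# MP_77656e_ag: families of maps between right DG modules (proofs)
-/

set_option autoImplicit false

namespace Pool.Agent.Helper17.RZF.Pf

universe u v w

variable {k : Type u} [Field k] {V : DGCat.{u, v, w} k}

theorem sgn_eq {M : ModuleCat.{w} k} (n : ℤ) (x : M) : sgn n x = n.negOnePow • x := rfl
theorem add_eq {M : ModuleCat.{w} k} (x y : M) : add x y = x + y := rfl
theorem sgn_succ {M : ModuleCat.{w} k} (n : ℤ) (x : M) : sgn (n + 1) x = - (n.negOnePow • x) := by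
  rw [sgn_eq, Int.negOnePow_succ, Units.neg_smul]

theorem lin_sign {M N : Type*} [AddCommGroup M] [AddCommGroup N] [Module k M] [Module k N]
    {f : M → N} (hf : IsLinearMap k f) (e : ℤˣ) (x : M) : f (e • x) = e • f x := by
  rw [Units.smul_def, Units.smul_def]
  exact map_zsmul hf.mk' _ x

theorem isHom_add {A B : DGMod V} {n : ℤ} {φ ψ : Raw A B n} (hφ : IsHom φ) (hψ : IsHom ψ) :
    IsHom (φ + ψ) := by
  constructor
  · intro X i j h
    exact ⟨fun x y => by
      change ap φ h (x + y) + ap ψ h (x + y) = (ap φ h x + ap ψ h x) + (ap φ h y + ap ψ h y)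
      rw [(hφ.lin h).map_add, (hψ.lin h).map_add]; abel, fun c x => by
      change ap φ h (c • x) + ap ψ h (c • x) = c • (ap φ h x + ap ψ h x)
      rw [(hφ.lin h).map_smul, (hψ.lin h).map_smul, smul_add]⟩
  · intro X Y i m l i' l' h₁ h₂ h₃ h₄ x f
    change ap φ h₂ _ + ap ψ h₂ _ = B.act h₄ (ap φ h₃ x + ap ψ h₃ x) f
    rw [hφ.nat h₁ h₂ h₃ h₄, hψ.nat h₁ h₂ h₃ h₄]
    exact ((B.ax.lin_left h₄ f).map_add _ _).symm

theorem isHom_zero (A B : DGMod V) (n : ℤ) : IsHom (0 : Raw A B n) := by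
  constructor
  · intro X i j h
    exact ⟨fun x y => (add_zero (0 : B.M X j)).symm, fun c x => (smul_zero c).symm⟩
  · intro X Y i m l i' l' h₁ h₂ h₃ h₄ x f
    exact ((B.ax.lin_left h₄ f).map_zero).symm

theorem isHom_smul {A B : DGMod V} {n : ℤ} (c : k) {φ : Raw A B n} (hφ : IsHom φ) :
    IsHom (c • φ) := by
  constructor
  · intro X i j h
    exact ⟨fun x y => by
      change c • ap φ h (x + y) = c • ap φ h x + c • ap φ h y
      rw [(hφ.lin h).map_add, smul_add], fun r x => by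
      change c • ap φ h (r • x) = r • c • ap φ h x
      rw [(hφ.lin h).map_smul, smul_comm]⟩
  · intro X Y i m l i' l' h₁ h₂ h₃ h₄ x f
    change c • ap φ h₂ _ = B.act h₄ (c • ap φ h₃ x) f
    rw [hφ.nat h₁ h₂ h₃ h₄]
    exact ((B.ax.lin_left h₄ f).map_smul _ _).symm

theorem isHom_one (A : DGMod V) : IsHom (oneRaw A) := by
  constructor
  · intro X i j h
    obtain rfl : i = j := deg_one h
    exact ⟨fun x y => rfl, fun c x => rfl⟩
  · intro X Y i m l i' l' h₁ h₂ h₃ h₄ x f
    obtain rfl : i = i' := deg_one h₃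
    obtain rfl : l = l' := deg_one h₂
    rfl

theorem isHom_comp {A B C : DGMod V} {n m l : ℤ} (h : n + m = l) {φ : Raw B C n} {ψ : Raw A B m}
    (hφ : IsHom φ) (hψ : IsHom ψ) : IsHom (compRaw h φ ψ) := by
  constructor
  · intro X i j hij
    exact ⟨fun x y => by
      change ap φ _ (ap ψ _ (x + y)) = ap φ _ (ap ψ _ x) + ap φ _ (ap ψ _ y)
      rw [(hψ.lin _).map_add, (hφ.lin _).map_add], fun c x => by
      change ap φ _ (ap ψ _ (c • x)) = c • ap φ _ (ap ψ _ x)
      rw [(hψ.lin _).map_smul, (hφ.lin _).map_smul]⟩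
  · intro X Y i r s i' s' h₁ h₂ h₃ h₄ x f
    change ap φ _ (ap ψ _ (A.act h₁ x f)) = C.act h₄ (ap φ _ (ap ψ _ x)) f
    rw [hψ.nat h₁ rfl rfl (show m + i + r = m + s by omega)]
    exact hφ.nat _ _ _ _ _ _

theorem comp_ap {A B C : DGMod V} {n m l : ℤ} (h : n + m = l) (φ : Raw B C n) (ψ : Raw A B m)
    {X : V.Obj} {i j s : ℤ} (hl : l + i = s) (h₁ : n + j = s) (h₂ : m + i = j) (x : A.M X i) :
    ap (compRaw h φ ψ) hl x = ap φ h₁ (ap ψ h₂ x) := by
  subst h₂; rfl

theorem d_ap {A B : DGMod V} {n m : ℤ} (h : n + 1 = m) (φ : Raw A B n) {X : V.Obj} {i j i₁ j₁ : ℤ}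
    (hij : m + i = j) (h₁ : j₁ + 1 = j) (h₂ : n + i = j₁) (h₃ : n + i₁ = j) (h₄ : i + 1 = i₁)
    (x : A.M X i) :
    ap (dRaw h φ) hij x = B.d h₁ (ap φ h₂ x) - n.negOnePow • ap φ h₃ (A.d h₄ x) := by
  subst h₂ h₄
  change _ + sgn (n + 1) _ = _
  rw [sgn_succ, ← sub_eq_add_neg]

theorem isHom_d {A B : DGMod V} {n m : ℤ} (h : n + 1 = m) {φ : Raw A B n} (hφ : IsHom φ) :
    IsHom (dRaw h φ) := by
  constructor
  · intro X i j hij
    have e : ∀ x : A.M X i, ap (dRaw h φ) hij x = B.d (deg_left h hij) (ap φ rfl x) -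
        n.negOnePow • ap φ (deg_right h hij) (A.d rfl x) := fun x => d_ap h φ hij _ rfl _ rfl x
    exact ⟨fun x y => by
      rw [e, e, e, (hφ.lin _).map_add, (B.ax.lin_d _).map_add, (A.ax.lin_d _).map_add, (hφ.lin _).map_add,
        smul_add]
      abel, fun c x => by
      rw [e, e, (hφ.lin _).map_smul, (B.ax.lin_d _).map_smul, (A.ax.lin_d _).map_smul,
        (hφ.lin _).map_smul, smul_sub, smul_comm c]⟩
  · intro X Y i r s i' s' h₁ h₂ h₃ h₄ x f
    obtain rfl : i' = n + i + 1 := by omega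
    rw [d_ap h φ h₂ (show n + s + 1 = s' by omega) rfl (show n + (s + 1) = s' by omega) rfl,
      d_ap h φ h₃ rfl rfl (show n + (i + 1) = n + i + 1 by omega) rfl,
      hφ.nat h₁ rfl rfl (show n + i + r = n + s by omega),
      B.ax.d_act _ _ (rfl : n + i + 1 = n + i + 1) (rfl : r + 1 = r + 1)
        (show n + i + 1 + r = s' by omega) (show n + i + (r + 1) = s' by omega),
      A.ax.d_act h₁ rfl (rfl : i + 1 = i + 1) (rfl : r + 1 = r + 1) (show i + 1 + r = s + 1 by omega)
        (show i + (r + 1) = s + 1 by omega),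
      add_eq, add_eq, sgn_eq, sgn_eq, (hφ.lin _).map_add, lin_sign (hφ.lin _),
      hφ.nat (show i + 1 + r = s + 1 by omega) _ (show n + (i + 1) = n + i + 1 by omega)
        (show n + i + 1 + r = s' by omega),
      hφ.nat (show i + (r + 1) = s + 1 by omega) _ (rfl : n + i = n + i) (show n + i + (r + 1) = s' by omega),
      (B.ax.lin_left _ f).map_sub, lin_sign (B.ax.lin_left _ f), smul_add, smul_smul, ← Int.negOnePow_add]
    abel

theorem ext_ap {A B : DGMod V} {n : ℤ} {φ ψ : Raw A B n}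
    (H : ∀ (X : V.Obj) (i j : ℤ) (h : n + i = j) (x : A.M X i), ap φ h x = ap ψ h x) : φ = ψ := by
  refine funext fun X => funext fun p => funext fun x => ?_
  obtain ⟨⟨i, j⟩, h⟩ := p
  exact H X i j h x

theorem raw_one_comp {A B : DGMod V} {n : ℤ} (h : 0 + n = n) (φ : Raw A B n) :
    compRaw h (oneRaw B) φ = φ := ext_ap fun X i j hij x => by
  rw [comp_ap h _ _ hij (zero_add j) hij]; rfl

theorem raw_comp_one {A B : DGMod V} {n : ℤ} (h : n + 0 = n) (φ : Raw A B n) :
    compRaw h φ (oneRaw A) = φ := ext_ap fun X i j hij x => by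
  rw [comp_ap h _ _ hij hij (zero_add i)]; rfl

theorem raw_assoc {A B C D : DGMod V} {a b c ab bc l : ℤ} (h₁ : a + b = ab) (h₂ : ab + c = l)
    (h₃ : b + c = bc) (h₄ : a + bc = l) (f : Raw C D a) (g : Raw B C b) (h : Raw A B c) :
    compRaw h₂ (compRaw h₁ f g) h = compRaw h₄ f (compRaw h₃ g h) := ext_ap fun X i j hij x => by
  rw [comp_ap h₂ _ _ hij (show ab + (c + i) = j by omega) rfl,
    comp_ap h₁ _ _ _ (show a + (bc + i) = j by omega) (show b + (c + i) = bc + i by omega),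
    comp_ap h₄ _ _ hij (show a + (bc + i) = j by omega) rfl,
    comp_ap h₃ _ _ _ (show b + (c + i) = bc + i by omega) rfl]

theorem raw_d_d {X Y : DGMod V} {n m l : ℤ} (h₁ : n + 1 = m) (h₂ : m + 1 = l) (f : Raw X Y n)
    (hf : IsHom f) : dRaw h₂ (dRaw h₁ f) = 0 := ext_ap fun P i j hij x => by
  rw [d_ap h₂ _ hij (show m + i + 1 = j by omega) rfl (show m + (i + 1) = j by omega) rfl,
    d_ap h₁ f _ (show n + i + 1 = m + i by omega) rfl (show n + (i + 1) = m + i by omega) rfl,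
    d_ap h₁ f _ (show m + i + 1 = j by omega) (show n + (i + 1) = m + i by omega)
      (show n + (i + 1 + 1) = j by omega) rfl,
    (Y.ax.lin_d _).map_sub, Y.ax.d_d, X.ax.d_d, zro, zro, (hf.lin _).map_zero, smul_zero, sub_zero, zero_sub,
    lin_sign (Y.ax.lin_d _), show m.negOnePow = - n.negOnePow by rw [← h₁, Int.negOnePow_succ],
    Units.neg_smul, sub_neg_eq_add, neg_add_cancel]
  rfl

theorem raw_d_comp {X Y Z : DGMod V} {n m l n' m' l' : ℤ} (h : n + m = l) (hl : l + 1 = l')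
    (hn : n + 1 = n') (hm : m + 1 = m') (h₁ : n' + m = l') (h₂ : n + m' = l') (f : Raw Y Z n)
    (hf : IsHom f) (g : Raw X Y m) :
    dRaw hl (compRaw h f g) = add (compRaw h₁ (dRaw hn f) g) (sgn n (compRaw h₂ f (dRaw hm g))) :=
  ext_ap fun P i j hij x => by
    change _ = ap (compRaw h₁ (dRaw hn f) g) hij x + n.negOnePow • ap (compRaw h₂ f (dRaw hm g)) hij x
    rw [d_ap hl _ hij (show l + i + 1 = j by omega) rfl (show l + (i + 1) = j by omega) rfl,
      comp_ap h f _ _ (show n + (m + i) = l + i by omega) rfl,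
      comp_ap h f _ _ (show n + (m' + i) = j by omega) (show m + (i + 1) = m' + i by omega),
      comp_ap h₁ _ g _ (show n' + (m + i) = j by omega) rfl,
      comp_ap h₂ f _ _ (show n + (m' + i) = j by omega) rfl,
      d_ap hn f _ (show l + i + 1 = j by omega) (show n + (m + i) = l + i by omega)
        (show n + (m' + i) = j by omega) (show m + i + 1 = m' + i by omega),
      d_ap hm g _ (show m + i + 1 = m' + i by omega) rfl (show m + (i + 1) = m' + i by omega) rfl,
      (hf.lin _).map_sub, lin_sign (hf.lin _), smul_sub, smul_smul, ← Int.negOnePow_add, h]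
    abel

end Pool.Agent.Helper17.RZF.Pf
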