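import Pool.Agent.Helper17.RZF.Mod2

/-!
# MP_77656e_ag: the DG category of right DG modules (proofs)
-/

set_option autoImplicit false

namespace Pool.Agent.Helper17.RZF.Pf

universe u v w

variable {k : Type u} [Field k]

theorem isDG_mod (V : DGCat.{u, v, w} k) :
    IsDG (Obj := DGMod V) ModHom oneHom (@compHom k _ V) (@dHom k _ V) where
  lin_left {A B C n m l} h ψ := ⟨fun _ _ => rfl, fun _ _ => rfl⟩
  lin_right {A B C n m l} h φ := ⟨fun ψ ψ' => Subtype.ext (ext_ap fun X i j hij x =>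
    (φ.2.lin _).map_add _ _), fun c ψ => Subtype.ext (ext_ap fun X i j hij x => (φ.2.lin _).map_smul c _)⟩
  lin_d {A B n m} h := ⟨fun φ ψ => Subtype.ext (ext_ap fun X i j hij x => by
      change ap (dRaw h (φ.1 + ψ.1)) hij x = ap (dRaw h φ.1) hij x + ap (dRaw h ψ.1) hij x
      rw [d_ap h _ hij (deg_left h hij) rfl (deg_right h hij) rfl,
        d_ap h φ.1 hij (deg_left h hij) rfl (deg_right h hij) rfl,
        d_ap h ψ.1 hij (deg_left h hij) rfl (deg_right h hij) rfl]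
      change B.d _ (ap φ.1 _ x + ap ψ.1 _ x) - n.negOnePow • (ap φ.1 _ _ + ap ψ.1 _ _) =
        (B.d _ (ap φ.1 _ x) - n.negOnePow • ap φ.1 _ _) + (B.d _ (ap ψ.1 _ x) - n.negOnePow • ap ψ.1 _ _)
      rw [(B.ax.lin_d _).map_add, smul_add]; abel),
    fun c φ => Subtype.ext (ext_ap fun X i j hij x => by
      change ap (dRaw h (c • φ.1)) hij x = c • ap (dRaw h φ.1) hij x
      rw [d_ap h _ hij (deg_left h hij) rfl (deg_right h hij) rfl,
        d_ap h φ.1 hij (deg_left h hij) rfl (deg_right h hij) rfl]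
      change B.d _ (c • ap φ.1 _ x) - n.negOnePow • (c • ap φ.1 _ _) =
        c • (B.d _ (ap φ.1 _ x) - n.negOnePow • ap φ.1 _ _)
      rw [(B.ax.lin_d _).map_smul, smul_sub, smul_comm])⟩
  one_comp h φ := Subtype.ext (raw_one_comp h φ.1)
  comp_one h φ := Subtype.ext (raw_comp_one h φ.1)
  assoc h₁ h₂ h₃ h₄ f g h := Subtype.ext (raw_assoc h₁ h₂ h₃ h₄ f.1 g.1 h.1)
  d_d h₁ h₂ f := Subtype.ext (raw_d_d h₁ h₂ f.1 f.2)
  d_comp h hl hn hm h₁ h₂ f g := Subtype.ext (raw_d_comp h hl hn hm h₁ h₂ f.1 f.2 g.1)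

theorem isMod_rep {V : DGCat.{u, v, w} k} (X : V.Obj) :
    IsMod V (repM X) (fun h x => up (V.d h (dn x))) (fun h x f => up (V.comp h (dn x) f)) where
  lin_d h := ⟨fun x y => ULift.ext _ _ ((V.ax.lin_d h).map_add _ _),
    fun c x => ULift.ext _ _ ((V.ax.lin_d h).map_smul c _)⟩
  lin_left h f := ⟨fun x y => ULift.ext _ _ ((V.ax.lin_left h f).map_add _ _),
    fun c x => ULift.ext _ _ ((V.ax.lin_left h f).map_smul c _)⟩
  lin_right h x := ⟨fun f g => ULift.ext _ _ ((V.ax.lin_right h (dn x)).map_add _ _),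
    fun c f => ULift.ext _ _ ((V.ax.lin_right h (dn x)).map_smul c _)⟩
  d_d h₁ h₂ x := ULift.ext _ _ (V.ax.d_d h₁ h₂ (dn x))
  act_one h x := ULift.ext _ _ (V.ax.comp_one h (dn x))
  act_act h₁ h₂ h₃ h₄ x f g := ULift.ext _ _ (V.ax.assoc h₁ h₂ h₃ h₄ (dn x) f g)
  d_act h hl hn hm h₁ h₂ x f := ULift.ext _ _ (V.ax.d_comp h hl hn hm h₁ h₂ (dn x) f)

theorem isDG_full (C : DGCat.{u, v, w} k) (P : C.Obj → Prop) :
    IsDG (Obj := {X : C.Obj // P X}) (fun X Y => C.Hom X.1 Y.1) (fun X => C.one X.1)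
      (fun h f g => C.comp h f g) (fun h f => C.d h f) where
  lin_left h g := C.ax.lin_left h g
  lin_right h f := C.ax.lin_right h f
  lin_d h := C.ax.lin_d h
  one_comp h f := C.ax.one_comp h f
  comp_one h f := C.ax.comp_one h f
  assoc h₁ h₂ h₃ h₄ f g h := C.ax.assoc h₁ h₂ h₃ h₄ f g h
  d_d h₁ h₂ f := C.ax.d_d h₁ h₂ f
  d_comp h hl hn hm h₁ h₂ f g := C.ax.d_comp h hl hn hm h₁ h₂ f g

end Pool.Agent.Helper17.RZF.Pf
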