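import Pool.Agent.Helper17.RZF.ModP2

/-!
# MP_77656e_ag: the DG category of right DG modules, perfect modules, DG algebras

Definitions used in the statement of the final theorem.
-/

set_option autoImplicit false

namespace Pool.Agent.Helper17.RZF

universe u v w

variable {k : Type u} [Field k]

theorem isDG_mod (V : DGCat.{u, v, w} k) : IsDG (Obj := DGMod V) ModHom oneHom (@compHom k _ V) (@dHom k _ V) :=
  Pf.isDG_mod V

/-- The DG category of right DG modules over `V`. -/
def modCat (V : DGCat.{u, v, w} k) : DGCat k where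
  Obj := DGMod V
  Hom := ModHom
  one := oneHom
  comp := @compHom k _ V
  d := @dHom k _ V
  ax := isDG_mod V

/-- `Y` is a retract of `X` in the homotopy category `H⁰(C)`. -/
def IsRetract (C : DGCat.{u, v, w} k) (Y X : C.Obj) : Prop :=
  ∃ (i : C.Hom Y X 0) (p : C.Hom X Y 0), Closed C i ∧ Closed C p ∧
    HomotopicToId C (C.comp (zero_add 0) p i)

/-- `Y` is the shift of `X` by `n`: there is a closed invertible morphism `X → Y` of degree `-n`. -/
def IsShift (C : DGCat.{u, v, w} k) (X Y : C.Obj) (n : ℤ) : Prop :=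
  ∃ (f : C.Hom X Y (-n)) (g : C.Hom Y X n), Closed C f ∧ Closed C g ∧
    C.comp (add_neg_cancel n) g f = C.one X ∧ C.comp (neg_add_cancel n) f g = C.one Y

/-- `Z` is a cone of the morphism `f : X → Y` of degree `0`: as a graded object it is the direct sum
of `Y` and of the shift of `X` (with the inclusions `i`, `j` and the projections `p`, `q`), with
`d i = 0`, `d q = 0`, `d j = i f`, `d p = - f q`. -/
def IsCone (C : DGCat.{u, v, w} k) {X Y : C.Obj} (f : C.Hom X Y 0) (Z : C.Obj) : Prop :=
  ∃ (i : C.Hom Y Z 0) (p : C.Hom Z Y 0) (j : C.Hom X Z (-1)) (q : C.Hom Z X 1),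
    C.comp (zero_add 0) p i = C.one Y ∧ C.comp (add_neg_cancel 1) q j = C.one X ∧
    add (C.comp (zero_add 0) i p) (C.comp (neg_add_cancel 1) j q) = C.one Z ∧
    C.comp (zero_add (-1)) p j = zro (C.Hom X Y (-1)) ∧ C.comp (add_zero 1) q i = zro (C.Hom Y X 1) ∧
    Closed C i ∧ Closed C q ∧ C.d (neg_add_cancel 1) j = C.comp (zero_add 0) i f ∧
    add (C.d (zero_add 1) p) (C.comp (zero_add 1) f q) = zro (C.Hom Z Y 1)

/-- The thick closure of a class `S` of objects: the smallest class of objects which contains `S` and is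
closed under shifts, cones of closed morphisms of degree `0`, and retracts in the homotopy category. -/
inductive Thick (C : DGCat.{u, v, w} k) (S : C.Obj → Prop) : C.Obj → Prop
  | base (X : C.Obj) : S X → Thick C S X
  | shift (X Y : C.Obj) (n : ℤ) : Thick C S X → IsShift C X Y n → Thick C S Y
  | cone (X Y Z : C.Obj) (f : C.Hom X Y 0) : Thick C S X → Thick C S Y → Closed C f →
      IsCone C f Z → Thick C S Z
  | retract (X Y : C.Obj) : Thick C S X → IsRetract C Y X → Thick C S Y

theorem isDG_full (C : DGCat.{u, v, w} k) (P : C.Obj → Prop) :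
    IsDG (Obj := {X : C.Obj // P X}) (fun X Y => C.Hom X.1 Y.1) (fun X => C.one X.1)
      (fun h f g => C.comp h f g) (fun h f => C.d h f) := Pf.isDG_full C P

/-- The full DG subcategory on the objects with the property `P`. -/
def fullSub (C : DGCat.{u, v, w} k) (P : C.Obj → Prop) : DGCat.{u, v, w} k where
  Obj := {X : C.Obj // P X}
  Hom X Y := C.Hom X.1 Y.1
  one X := C.one X.1
  comp h f g := C.comp h f g
  d h f := C.d h f
  ax := isDG_full C P

theorem isMod_rep {V : DGCat.{u, v, w} k} (X : V.Obj) :
    IsMod V (repM X) (fun h x => up (V.d h (dn x))) (fun h x f => up (V.comp h (dn x) f)) := Pf.isMod_rep X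

/-- The representable module `Hom(-, X)`. -/
def rep {V : DGCat.{u, v, w} k} (X : V.Obj) : DGMod V where
  M := repM X
  d h x := up (V.d h (dn x))
  act h x f := up (V.comp h (dn x) f)
  ax := isMod_rep X

/-- `Perf V`: the DG category of perfect right DG modules over `V`, that is the full DG subcategory of
the DG category of all modules on the thick closure of the representable modules. -/
def Perf (V : DGCat.{u, v, w} k) : DGCat k :=
  fullSub (modCat V) (Thick (modCat V) (fun P => ∃ X : V.Obj, P = rep X))

/-- A DG algebra over `k`: vector spaces `R n`, a unit, a product and a differential which satisfy the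
axioms of a DG category with one object. -/
structure DGAlg (k : Type u) [Field k] where
  R : ℤ → ModuleCat.{w} k
  one : R 0
  mul : ∀ {n m l : ℤ}, n + m = l → R n → R m → R l
  d : ∀ {n m : ℤ}, n + 1 = m → R n → R m
  ax : IsDG (Obj := Unit) (fun _ _ n => R n) (fun _ => one) (fun h f g => mul h f g) (fun h f => d h f)

/-- `R` is finite-dimensional. -/
def DGAlg.FinDim (A : DGAlg.{u, w} k) : Prop := Module.Finite k (DirectSum ℤ (fun n => A.R n))

theorem isDG_oneObj (A : DGAlg.{u, w} k) : IsDG (Obj := PUnit.{v + 1}) (fun _ _ n => A.R n)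
    (fun _ => A.one) (fun h f g => A.mul h f g) (fun h f => A.d h f) where
  lin_left h g := A.ax.lin_left (X := ()) (Y := ()) (Z := ()) h g
  lin_right h f := A.ax.lin_right (X := ()) (Y := ()) (Z := ()) h f
  lin_d h := A.ax.lin_d (X := ()) (Y := ()) h
  one_comp h f := A.ax.one_comp (X := ()) (Y := ()) h f
  comp_one h f := A.ax.comp_one (X := ()) (Y := ()) h f
  assoc h₁ h₂ h₃ h₄ f g h := A.ax.assoc (W := ()) (X := ()) (Y := ()) (Z := ()) h₁ h₂ h₃ h₄ f g h
  d_d h₁ h₂ f := A.ax.d_d (X := ()) (Y := ()) h₁ h₂ f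
  d_comp h hl hn hm h₁ h₂ f g := A.ax.d_comp (X := ()) (Y := ()) (Z := ()) h hl hn hm h₁ h₂ f g

/-- A DG algebra as a DG category with one object. -/
def oneObj (A : DGAlg.{u, w} k) : DGCat.{u, v, w} k where
  Obj := PUnit.{v + 1}
  Hom _ _ n := A.R n
  one _ := A.one
  comp h f g := A.mul h f g
  d h f := A.d h f
  ax := isDG_oneObj A

end Pool.Agent.Helper17.RZF
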